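import Pool.Agent.E8helper32.SP.Eu

/-!
# Essential singularities in a root of the variable are impossible
-/

set_option autoImplicit false

open Complex MeasureTheory Metric Set Filter Topology ComplexConjugate

namespace Pool.Agent.E8helper32.SP

open Pool.Agent.Y245.SC
open Pool.Agent.Y441.ES (radius_ge eta_lt eta_mem deriv_le)
open Pool.Agent.E8helper32.SA (Ji JB Ji_diff)
open Pool.Agent.E8helper32.SL (JU)

/-- comparison of the radii -/
theorem rad {q n M : ℕ} (hq : 2 ≤ q) (hM : 65536 ≤ M) (hn0 : 0 < n) (hn : n ≤ q * (M + 1)) :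
    (M : ℝ) ^ (-(9 / 16 : ℝ)) / q ≤ 9 / 10 * (n : ℝ) ^ (-(9 / 16 : ℝ)) := by
  have hM' : (65536 : ℝ) ≤ M := by exact_mod_cast hM
  have hM0 : (0 : ℝ) < M := by linarith
  have hq' : (2 : ℝ) ≤ q := by exact_mod_cast hq
  have hq0 : (0 : ℝ) < q := by linarith
  have hn0' : (0 : ℝ) < n := by exact_mod_cast hn0
  have hn' : (n : ℝ) ≤ q * (M + 1) := by exact_mod_cast hn
  have h1 : (n : ℝ) / M ≤ 11 / 10 * q := by
    rw [div_le_iff₀ hM0]
    nlinarith
  have hx0 : 0 ≤ (n : ℝ) / M := by positivity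
  obtain ⟨u, hu⟩ : ∃ u, u = ((n : ℝ) / M) ^ (9 / 16 : ℝ) := ⟨_, rfl⟩
  have hu0 : 0 ≤ u := by rw [hu]; exact Real.rpow_nonneg hx0 _
  have hu16 : u ^ 16 = ((n : ℝ) / M) ^ 9 := by
    rw [hu, ← Real.rpow_natCast, ← Real.rpow_mul hx0, ← Real.rpow_natCast]
    norm_num
  have hu1 : u ≤ 9 / 10 * q := by
    refine le_of_pow_le_pow_left₀ (n := 16) (by norm_num) (by positivity) ?_
    rw [hu16]
    calc ((n : ℝ) / M) ^ 9 ≤ (11 / 10 * q) ^ 9 := by gcongr
      _ = (11 / 10) ^ 9 * (q : ℝ) ^ 9 := mul_pow _ _ _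
      _ ≤ ((9 / 10) ^ 16 * 2 ^ 7) * (q : ℝ) ^ 9 := by
        gcongr
        norm_num
      _ ≤ ((9 / 10) ^ 16 * (q : ℝ) ^ 7) * (q : ℝ) ^ 9 := by gcongr
      _ = (9 / 10 * q) ^ 16 := by rw [mul_pow]; ring
  have h2 : (M : ℝ) ^ (-(9 / 16 : ℝ)) = (n : ℝ) ^ (-(9 / 16 : ℝ)) * u := by
    rw [hu, Real.div_rpow hn0'.le hM0.le, Real.rpow_neg hM0.le, Real.rpow_neg hn0'.le]
    have := Real.rpow_pos_of_pos hn0' (9 / 16)
    field_simp
  have h3 := Real.rpow_pos_of_pos hn0' (-(9 / 16))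
  rw [h2, div_le_iff₀ hq0]
  calc (n : ℝ) ^ (-(9 / 16 : ℝ)) * u ≤ (n : ℝ) ^ (-(9 / 16 : ℝ)) * (9 / 10 * q) := by gcongr
    _ = _ := by ring

/-- a branch of `V` in the variable `ζ` -/
noncomputable def fs (V : ℂ → ℂ) (q : ℕ) (ζt : ℂ) (s : ℝ) (ζ : ℂ) : ℂ :=
  V (0 + 1 / (ζt * exp (s * I / q) * exp (log (ζ / (ζt ^ q * exp (s * I))) / q)))

/-- the exponent -/
noncomputable def Hq (n q : ℕ) (Ht : ℂ → ℂ) (τ : ℂ) : ℂ :=
  Ht (τ / q) + ((n : ℂ) / q - ((n / q : ℕ) : ℂ)) * τ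

variable {V : ℂ → ℂ} {q n : ℕ} {rt : ℝ} {ζt : ℂ} {Ht : ℂ → ℂ}

theorem fs_val (hζ : ζt ≠ 0) {s : ℝ} {τ : ℂ} (h1 : -Real.pi < τ.im - s)
    (h2 : τ.im - s ≤ Real.pi) : fs V q ζt s (ζt ^ q * exp τ) = V (0 + 1 / (ζt * exp (τ / q))) := by
  unfold fs
  have e1 : ζt ^ q * exp τ / (ζt ^ q * exp (s * I)) = exp (τ - s * I) := by
    rw [mul_div_mul_left _ _ (pow_ne_zero _ hζ), exp_sub]
  have him : (τ - s * I).im = τ.im - s := by simp
  rw [e1, log_exp (by rw [him]; exact h1) (by rw [him]; exact h2), mul_assoc, ← exp_add]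
  congr 5
  ring

theorem wv_q (hq : 2 ≤ q) (hW : WV (fun ζ => V (0 + 1 / ζ)) n rt ζt Ht) (hM : 65536 ≤ n / q)
    {s : ℝ} (hs : |s| ≤ 2) : WV (fs V q ζt s) (n / q) (rt ^ q) (ζt ^ q) (Hq n q Ht) := by
  obtain ⟨hr0, hζr, hf0, hmx, hH, hH0, hH1, hHf⟩ := hW
  have hq0 : 0 < q := by omega
  have hq' : (0 : ℝ) < q := by exact_mod_cast hq0
  have hqc : (q : ℂ) ≠ 0 := by exact_mod_cast hq0.ne'
  have hζ : ζt ≠ 0 := by rw [← norm_pos_iff, hζr]; exact hr0
  have hn0 : 0 < n := by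
    by_contra h
    have : n = 0 := by omega
    rw [this, Nat.zero_div] at hM
    omega
  have hnM : n ≤ q * (n / q + 1) := by
    have := Nat.lt_mul_div_succ n hq0
    exact this.le
  have hrad := rad hq hM hn0 hnM
  have hpi := Real.pi_gt_three
  have hn16 : (0 : ℝ) < (n : ℝ) ^ (-(9 / 16 : ℝ)) :=
    Real.rpow_pos_of_pos (by exact_mod_cast hn0) _
  have hM1 : (1 : ℝ) ≤ ((n / q : ℕ) : ℝ) := by exact_mod_cast (by omega : 1 ≤ n / q)
  have hMs : ((n / q : ℕ) : ℝ) ^ (-(9 / 16 : ℝ)) ≤ 1 / 10 := by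
    have h1 : ((n / q : ℕ) : ℝ) ^ (-(9 / 16 : ℝ)) ≤ (65536 : ℝ) ^ (-(9 / 16 : ℝ)) :=
      Real.rpow_le_rpow_of_nonpos (by norm_num) (by exact_mod_cast hM) (by norm_num)
    have h2 : (65536 : ℝ) ^ (-(9 / 16 : ℝ)) = 1 / 512 := by
      rw [show (65536 : ℝ) = 2 ^ (16 : ℝ) by norm_num, ← Real.rpow_mul (by norm_num)]
      norm_num
    rw [h2] at h1
    linarith
  have hmem : ∀ τ ∈ ball (0 : ℂ) (((n / q : ℕ) : ℝ) ^ (-(9 / 16 : ℝ))),
      ‖τ / q‖ ≤ 9 / 10 * (n : ℝ) ^ (-(9 / 16 : ℝ)) := by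
    intro τ hτ
    rw [mem_ball_zero_iff] at hτ
    rw [norm_div, Complex.norm_natCast]
    refine le_trans ?_ hrad
    gcongr
  have hmem' : ∀ τ ∈ ball (0 : ℂ) (((n / q : ℕ) : ℝ) ^ (-(9 / 16 : ℝ))),
      τ / q ∈ ball (0 : ℂ) ((n : ℝ) ^ (-(9 / 16 : ℝ))) := by
    intro τ hτ
    rw [mem_ball_zero_iff]
    have := hmem τ hτ
    linarith
  have hfm : fs V q ζt s (ζt ^ q) = V (0 + 1 / ζt) := by
    have h1 := fs_val (V := V) (q := q) hζ (s := s) (τ := 0) (by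
      rw [zero_im]; have := (abs_le.1 hs).2; linarith) (by
      rw [zero_im]; have := (abs_le.1 hs).1; linarith)
    rwa [exp_zero, mul_one, zero_div, exp_zero, mul_one] at h1
  refine ⟨pow_pos hr0 _, by rw [norm_pow, hζr], ?_, ?_, ?_, ?_, ?_, ?_⟩
  · rw [hfm]; exact hf0
  · intro ζ hζn
    rw [hfm]
    refine hmx _ ?_
    rw [norm_mul, norm_mul, hζr, norm_exp, norm_exp]
    have e1 : (s * I / q : ℂ).re = 0 := by
      rw [← ofReal_natCast, div_ofReal_re]; simp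
    have e2 : (log (ζ / (ζt ^ q * exp (s * I))) / q : ℂ).re = 0 := by
      rw [← ofReal_natCast, div_ofReal_re, log_re, norm_div, norm_mul, norm_exp_ofReal_mul_I,
        mul_one, norm_pow, hζr, hζn, div_self (pow_pos hr0 _).ne', Real.log_one, zero_div]
    rw [e1, e2, Real.exp_zero, mul_one, mul_one]
  · unfold Hq
    refine DifferentiableOn.add ?_ (differentiableOn_id.const_mul _)
    exact hH.comp (differentiableOn_id.div_const _) hmem'
  · unfold Hq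
    rw [zero_div, hH0, mul_zero, add_zero]
  · intro τ hτ
    unfold Hq
    have h1 := dist_le_div_mul_dist_of_mapsTo_ball hH (R₂ := 1) (fun z hz => by
      rw [hH0, mem_closedBall_zero_iff]; exact hH1 z hz) (hmem' τ hτ)
    rw [hH0, dist_zero_right, dist_zero_right] at h1
    have h2 : ‖Ht (τ / q)‖ ≤ 9 / 10 := by
      refine h1.trans ?_
      calc 1 / (n : ℝ) ^ (-(9 / 16 : ℝ)) * ‖τ / q‖
          ≤ 1 / (n : ℝ) ^ (-(9 / 16 : ℝ)) * (9 / 10 * (n : ℝ) ^ (-(9 / 16 : ℝ))) := by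
            have := hmem τ hτ
            gcongr
        _ = 9 / 10 := by field_simp
    have h3 : ‖((n : ℂ) / q - ((n / q : ℕ) : ℂ))‖ ≤ 1 := by
      have e : ((n : ℂ) / q - ((n / q : ℕ) : ℂ)) = (((n : ℝ) / q - ((n / q : ℕ) : ℝ) : ℝ) : ℂ) := by
        push_cast; rfl
      rw [e, norm_real, Real.norm_eq_abs, abs_le]
      have a1 : ((n / q : ℕ) : ℝ) ≤ (n : ℝ) / q := Nat.cast_div_le
      have a2 : (n : ℝ) / q ≤ ((n / q : ℕ) : ℝ) + 1 := by
        rw [div_le_iff₀ hq', mul_comm]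
        exact_mod_cast hnM
      constructor <;> linarith
    rw [mem_ball_zero_iff] at hτ
    refine (norm_add_le _ _).trans ?_
    rw [norm_mul]
    have h4 := norm_nonneg τ
    nlinarith
  · intro τ hτ
    have h1 := hmem' τ hτ
    have hτn : ‖τ‖ < 1 / 10 := (mem_ball_zero_iff.1 hτ).trans_le hMs
    have him := (abs_im_le_norm τ).trans_lt hτn
    have hs' := abs_le.1 hs
    have him' := abs_lt.1 him
    rw [fs_val hζ (by linarith) (by linarith), hfm]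
    have h2 := hHf _ h1
    simp only at h2
    rw [h2]
    congr 2
    unfold Hq
    field_simp
    ring

/-- the phase -/
theorem pp_q (hq : 2 ≤ q) (hζ : ζt ≠ 0) {η θ : ℝ} (hη : |η| ≤ 1) (hθ : |θ| ≤ Real.pi) :
    PP 0 id (fs V q ζt (η - θ / 2)) (n / q) (Hq n q Ht) (ζt ^ q) η θ =
      Pu (fun σ => V (exp (σ / q))) (q * log (1 / (ζt * exp (η * I / q))))
        (((n / q : ℕ) : ℂ) + deriv (Hq n q Ht) (η * I)) θ := by
  have hq0 : 0 < q := by omega
  have hqc : (q : ℂ) ≠ 0 := by exact_mod_cast hq0.ne'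
  have hpi := Real.pi_gt_three
  have hη' := abs_le.1 hη
  have hθ' := abs_le.1 hθ
  have ht0 : (1 / (ζt * exp (η * I / q)) : ℂ) ≠ 0 :=
    one_div_ne_zero (mul_ne_zero hζ (exp_ne_zero _))
  have hzz : (ζt ^ q * exp (η * I) : ℂ) ≠ 0 := mul_ne_zero (pow_ne_zero _ hζ) (exp_ne_zero _)
  have i1 : (η * I : ℂ).im = η := by simp
  have i2 : (η * I + -(θ * I) : ℂ).im = η - θ := by simp; ring
  have e1 : fs V q ζt (η - θ / 2) (ζt ^ q * exp (η * I)) =
      V (0 + 1 / (ζt * exp (η * I / q))) :=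
    fs_val hζ (by rw [i1]; linarith) (by rw [i1]; linarith)
  have e2 : fs V q ζt (η - θ / 2) (ζt ^ q * exp (η * I) * exp (-(θ * I))) =
      V (0 + 1 / (ζt * exp ((η * I + -(θ * I)) / q))) := by
    rw [mul_assoc, ← exp_add]
    exact fs_val hζ (by rw [i2]; linarith) (by rw [i2]; linarith)
  have e3 : exp ((q * log (1 / (ζt * exp (η * I / q)))) / q) = 1 / (ζt * exp (η * I / q)) := by
    rw [mul_div_cancel_left₀ _ hqc, exp_log ht0]
  have e4 : exp ((q * log (1 / (ζt * exp (η * I / q))) + θ * I) / q) =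
      1 / (ζt * exp ((η * I + -(θ * I)) / q)) := by
    rw [add_div, exp_add, e3]
    have h1 : exp ((η * I + -(θ * I)) / q) = exp (η * I / q) * exp (-(θ * I / q)) := by
      rw [← exp_add]; congr 1; ring
    rw [h1, exp_neg]
    have h2 := exp_ne_zero (θ * I / q)
    have h3 := exp_ne_zero (η * I / q)
    field_simp
  have h3 : (id (0 + exp (θ * I) / (ζt ^ q * exp (η * I))) -
      id (0 + 1 / (ζt ^ q * exp (η * I)))) * (ζt ^ q * exp (η * I)) /
      deriv (id : ℂ → ℂ) (0 + 1 / (ζt ^ q * exp (η * I))) = exp (θ * I) - 1 := by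
    have h1 : deriv (id : ℂ → ℂ) (0 + 1 / (ζt ^ q * exp (η * I))) = 1 := deriv_id _
    rw [h1]
    simp only [id]
    rw [zero_add, zero_add, div_one, sub_mul, div_mul_cancel₀ _ hzz, div_mul_cancel₀ _ hzz]
  unfold PP Pu
  simp only
  rw [h3, e1, e2, e3, e4, zero_add, zero_add]

/-- the maximum principle in an annulus -/
theorem max_ann {X : ℂ → ℂ} {R R1 : ℝ} (hR1 : 0 < R1) (hR : R1 < R)
    (hX : DifferentiableOn ℂ X (ball 0 R \ {0})) :
    ∃ B0 : ℝ, ∀ (r m : ℝ), 0 < r → 1 / r < R1 → B0 ≤ m →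
      (∀ ζ : ℂ, ‖ζ‖ = r → ‖X (1 / ζ)‖ ≤ m) →
      ∀ x : ℂ, 1 / r ≤ ‖x‖ → ‖x‖ ≤ R1 → ‖X x‖ ≤ m := by
  obtain ⟨B0, hB0⟩ := (isCompact_sphere (0 : ℂ) R1).exists_bound_of_continuousOn
    (f := X) (hX.continuousOn.mono (by
      intro x hx
      rw [mem_sphere_zero_iff_norm] at hx
      refine ⟨by rw [mem_ball_zero_iff, hx]; exact hR, ?_⟩
      rintro rfl
      rw [norm_zero] at hx
      exact hR1.ne hx))
  refine ⟨B0, fun r m hr hlt hBm hm x hx1 hx2 => ?_⟩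
  have hr' : 0 < 1 / r := by positivity
  have hs1 : ∀ z : ℂ, ‖z‖ = 1 / r → ‖X z‖ ≤ m := by
    intro z hz
    have h1 := hm (1 / z) (by rw [norm_div, norm_one, hz, one_div_one_div])
    rwa [one_div_one_div] at h1
  have hs2 : ∀ z : ℂ, ‖z‖ = R1 → ‖X z‖ ≤ m := fun z hz =>
    (hB0 z (by rw [mem_sphere_zero_iff_norm]; exact hz)).trans hBm
  rcases hx1.eq_or_lt with h1 | h1
  · exact hs1 x h1.symm
  rcases hx2.eq_or_lt with h2 | h2
  · exact hs2 x h2
  set U : Set ℂ := ball 0 R1 \ closedBall 0 (1 / r) with hU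
  have hxU : x ∈ U := ⟨by rwa [mem_ball_zero_iff], by
    rw [mem_closedBall_zero_iff, not_le]; exact h1⟩
  have hcl : closure U ⊆ ball 0 R \ {0} := by
    have h3 : U ⊆ closedBall 0 R1 ∩ (ball 0 (1 / r))ᶜ := by
      intro z hz
      refine ⟨ball_subset_closedBall hz.1, fun h => hz.2 (ball_subset_closedBall h)⟩
    have h4 : IsClosed (closedBall (0 : ℂ) R1 ∩ (ball 0 (1 / r))ᶜ) :=
      isClosed_closedBall.inter isOpen_ball.isClosed_compl
    refine (closure_minimal h3 h4).trans ?_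
    rintro z ⟨hz1, hz2⟩
    rw [mem_closedBall_zero_iff] at hz1
    refine ⟨by rw [mem_ball_zero_iff]; linarith, ?_⟩
    rintro rfl
    exact hz2 (mem_ball_self hr')
  refine Complex.norm_le_of_forall_mem_frontier_norm_le (U := U)
    (isBounded_ball.subset sdiff_subset) (hX.mono hcl).diffContOnCl ?_ (subset_closure hxU)
  intro z hz
  have h3 : frontier U ⊆ frontier (ball (0 : ℂ) R1) ∪ frontier (closedBall (0 : ℂ) (1 / r)) := by
    rw [hU, sdiff_eq]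
    refine (frontier_inter_subset _ _).trans ?_
    rw [frontier_compl]
    exact union_subset_union inter_subset_left inter_subset_right
  rcases h3 hz with h4 | h4
  · rw [frontier_ball _ hR1.ne', mem_sphere_zero_iff_norm] at h4
    exact hs2 z h4
  · rw [frontier_closedBall _ hr'.ne', mem_sphere_zero_iff_norm] at h4
    exact hs1 z h4

end Pool.Agent.E8helper32.SP
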