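import Pool.Agent.E8helper32.SP.Es

/-!
# Essential singularities in a root of the variable are impossible: conclusion
-/

set_option autoImplicit false

open Complex MeasureTheory Metric Set Filter Topology ComplexConjugate

namespace Pool.Agent.E8helper32.SP

open Pool.Agent.Y245.SC
open Pool.Agent.Y441.ES (radius_ge eta_lt eta_mem deriv_le)
open Pool.Agent.E8helper32.SA (Ji JB Ji_diff)
open Pool.Agent.E8helper32.SL (JU)

variable {a Λ : ℝ} {T V : ℂ → ℂ} {cc : ℂ} {q : ℕ}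

theorem exp_neg_one_ge : (1 : ℝ) / 3 ≤ Real.exp (-1) := by
  rw [Real.exp_neg, one_div]
  apply inv_anti₀ (Real.exp_pos 1)
  linarith [Real.exp_one_lt_d9]

/-- **Essential singularities in `exp (σ / q)` are impossible.** -/
theorem partEq (hq : 2 ≤ q) (ha : 0 < a) (hJU : JU a Λ T)
    (hTd : DifferentiableOn ℂ T (re ⁻¹' Iio Λ)) (hess : Ess 0 (Real.exp (Λ / q)) V)
    (hT : ∀ σ : ℂ, σ.re < Λ → T σ = V (exp (σ / q)) + cc * σ) : False := by
  have hq0 : 0 < q := by omega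
  have hq' : (0 : ℝ) < q := by exact_mod_cast hq0
  have hq1 : (1 : ℝ) ≤ q := by exact_mod_cast (by omega : 1 ≤ q)
  have hqc : (q : ℂ) ≠ 0 := by exact_mod_cast hq0.ne'
  have hdid : deriv (id : ℂ → ℂ) 0 ≠ 0 := by rw [deriv_id]; exact one_ne_zero
  obtain ⟨N1, hph⟩ := Pool.Agent.Y287.ES.ph 0 (Real.exp Λ) a id (Real.exp_pos _) ha
    differentiableOn_id hdid
  obtain ⟨N2, C1, hin⟩ := Pool.Agent.Y852.ES.inq 0 (Real.exp Λ) id (Real.exp_pos _)
    differentiableOn_id hdid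
  have hR : Real.exp ((Λ - 1) / q) < Real.exp (Λ / q) :=
    Real.exp_lt_exp.2 (by rw [div_lt_div_iff_of_pos_right hq']; linarith)
  obtain ⟨B0, hB0⟩ := max_ann (Real.exp_pos _) hR hess.1
  set Y : ℝ := q * Real.pi with hY
  have hpi := Real.pi_pos
  have hY0 : 0 ≤ Y := by positivity
  -- the function
  set U : ℂ → ℂ := fun σ => V (exp (σ / q)) with hUdef
  have hqre : ∀ σ : ℂ, (σ / q).re = σ.re / q := fun σ => by
    rw [← ofReal_natCast, div_ofReal_re]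
  have hUd : DifferentiableOn ℂ U (re ⁻¹' Iio Λ) := by
    refine hess.1.comp ((differentiable_id.div_const (q : ℂ)).cexp).differentiableOn
      fun σ hσ => ?_
    refine ⟨?_, exp_ne_zero _⟩
    rw [mem_ball_zero_iff, norm_exp]
    refine Real.exp_lt_exp.2 ?_
    show ((id σ) / (q : ℂ)).re < Λ / q
    rw [id, hqre, div_lt_div_iff_of_pos_right hq']
    exact hσ
  set N0 : ℕ := N1 + N2 + 65536 + (⌈Real.exp (1 - Λ)⌉₊ + 1) + ⌈|B0|⌉₊ + ⌈6 / a⌉₊ +
    ⌈a * ‖cc‖ * (Y + 10 + |Λ|)⌉₊ with hN0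
  refine partU (U := U) (Y := Y) (C1 := C1) hJU hTd hT fun k => ?_
  obtain ⟨n, rt, ζt, Ht, hn, hrt, hW, hbig⟩ := wv_of_wv2 Pool.Agent.Y849.ES.laur
    Pool.Agent.Y290.ES.norm2_thm Pool.Agent.Y542.ES.wv2 Pool.Agent.Y849.ES.laur
    (norm_of_norm2 Pool.Agent.Y290.ES.norm2_thm) 0 (Real.exp (Λ / q)) V (Real.exp_pos _) hess
    (9 * q) (q * (N0 + k))
  -- the sizes
  set M : ℕ := n / q with hMdef
  have hMN : N0 + k ≤ M := by
    rw [hMdef, Nat.le_div_iff_mul_le hq0, mul_comm]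
    exact hn
  have hM65 : 65536 ≤ M := by omega
  have hMn : M ≤ n := Nat.div_le_self _ _
  have hrt1 : ((N0 + k : ℕ) : ℝ) ≤ rt := by
    refine le_trans ?_ hrt
    push_cast
    have : (0 : ℝ) ≤ (N0 : ℝ) + k := by positivity
    nlinarith
  have hrtone : 1 ≤ rt := by
    refine le_trans ?_ hrt1
    exact_mod_cast (by omega : 1 ≤ N0 + k)
  set r : ℝ := rt ^ q with hr
  have hrrt : rt ≤ r := le_self_pow₀ hrtone hq0.ne'
  have hle : ∀ m : ℕ, m ≤ N0 → (m : ℝ) ≤ r := fun m hm =>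
    (le_trans (by exact_mod_cast (by omega : m ≤ N0 + k)) hrt1).trans hrrt
  have hr1 : 1 ≤ r := hrtone.trans hrrt
  have hr0 : 0 < r := by linarith
  have hrt0 : 0 < rt := by linarith
  have hζr : ‖ζt‖ = rt := hW.2.1
  have hζ : ζt ≠ 0 := by rw [← norm_pos_iff, hζr]; exact hrt0
  have hM1 : (1 : ℝ) ≤ M := by exact_mod_cast (by omega : 1 ≤ M)
  have hM65' : (65536 : ℝ) ≤ M := by exact_mod_cast hM65
  have hM0 : (0 : ℝ) < M := by linarith
  -- the phase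
  obtain ⟨η, A, hη, hA, hA2⟩ := hph _ M r (ζt ^ q) (Hq n q Ht) (by omega) (hle _ (by omega))
    (wv_q (V := V) (s := 0) hq hW hM65 (by norm_num))
  have hη8 := eta_lt hM65 hη
  have hη1 : |η| ≤ 1 := by
    refine hη8.trans ?_
    rw [div_le_one hM0]
    linarith
  have hηb := abs_le.1 hη1
  have hpi3 := Real.pi_gt_three
  set Nc : ℂ := ((n / q : ℕ) : ℂ) + deriv (Hq n q Ht) (η * I) with hNc
  set t0 : ℂ := 1 / (ζt * exp (η * I / q)) with ht0
  have ht00 : t0 ≠ 0 := one_div_ne_zero (mul_ne_zero hζ (exp_ne_zero _))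
  set s0 : ℂ := q * log t0 with hs0
  have hexq : exp (s0 / q) = t0 := by
    rw [hs0, mul_div_cancel_left₀ _ hqc, exp_log ht00]
  have ht0n : ‖t0‖ = 1 / rt := by
    rw [ht0, norm_div, norm_one, norm_mul, hζr, norm_exp]
    have e1 : (η * I / q : ℂ).re = 0 := by rw [hqre]; simp
    rw [e1, Real.exp_zero, mul_one]
  have hexs : exp s0 = 1 / (ζt ^ q * exp (η * I)) := by
    have h1 : exp s0 = exp (s0 / q) ^ q := by
      rw [← exp_nat_mul, mul_div_cancel₀ _ hqc]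
    rw [h1, hexq, ht0, div_pow, one_pow, mul_pow, ← exp_nat_mul, mul_div_cancel₀ _ hqc]
  have i1 : (η * I : ℂ).im = η := by simp
  have hf0 : fs V q ζt 0 (ζt ^ q * exp (η * I)) = U s0 := by
    rw [fs_val hζ (by rw [i1]; linarith) (by rw [i1]; linarith)]
    simp only [U]
    rw [hexq, zero_add]
  have hA2' : (A : ℂ) ^ 2 = -(a * U s0 * Nc * exp s0) := by
    have h1 : deriv (id : ℂ → ℂ) (0 + 1 / (ζt ^ q * exp (η * I))) = 1 := deriv_id _
    rw [hf0, h1, mul_one] at hA2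
    rw [hA2, hexs, hNc]
    ring
  obtain ⟨-, -, -, -, wH, -, wH1, -⟩ := wv_q (V := V) (s := 0) hq hW hM65 (by norm_num)
  have hNcn : (M : ℝ) / 2 ≤ ‖Nc‖ := by
    have h5 := deriv_le hM65 wH wH1 hη
    have h6 := norm_sub_le_norm_add (M : ℂ) (deriv (Hq n q Ht) (η * I))
    rw [Complex.norm_natCast] at h6
    rw [hNc]
    linarith
  -- the value at the maximum
  have hfm : ‖V (0 + 1 / ζt)‖ ≤ 3 * ‖U s0‖ := by
    obtain ⟨-, -, -, -, -, -, w1, w2⟩ := wv_q (V := V) (s := 0) hq hW hM65 (by norm_num)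
    have h1 := w2 _ (eta_mem hM65 hη)
    have h2 : fs V q ζt 0 (ζt ^ q) = V (0 + 1 / ζt) := by
      have h1 := fs_val (V := V) (q := q) hζ (s := 0) (τ := 0) (by
        rw [zero_im]; linarith) (by rw [zero_im]; linarith)
      rwa [exp_zero, mul_one, zero_div, exp_zero, mul_one] at h1
    rw [hf0, h2] at h1
    rw [h1, norm_mul]
    have h3 : 1 / 3 ≤ ‖exp (((n / q : ℕ) : ℂ) * (η * I) + Hq n q Ht (η * I))‖ := by
      rw [Complex.norm_exp]
      have h3 : (((n / q : ℕ) : ℂ) * (η * I) + Hq n q Ht (η * I) : ℂ).re =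
          (Hq n q Ht (η * I)).re := by simp
      rw [h3]
      have h4 : -1 ≤ (Hq n q Ht (η * I)).re :=
        (abs_le.mp ((Complex.abs_re_le_norm _).trans (w1 _ (eta_mem hM65 hη)))).1
      exact exp_neg_one_ge.trans (Real.exp_le_exp.mpr h4)
    have h4 := norm_nonneg (V (0 + 1 / ζt))
    nlinarith
  have hV0 : 0 < ‖V (0 + 1 / ζt)‖ := norm_pos_iff.2 hW.2.2.1
  have hU0 : U s0 ≠ 0 := by
    intro h
    rw [h, norm_zero, mul_zero] at hfm
    linarith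
  have hbig' : (M : ℝ) ^ 9 * r ^ 9 ≤ ‖V (0 + 1 / ζt)‖ := by
    refine le_trans ?_ hbig
    have h1 : r ^ 9 = rt ^ (9 * q) := by rw [hr, ← pow_mul, mul_comm]
    have h2 : (M : ℝ) ^ 9 ≤ (n : ℝ) ^ (9 * q) := by
      calc (M : ℝ) ^ 9 ≤ (n : ℝ) ^ 9 := by gcongr
        _ ≤ (n : ℝ) ^ (9 * q) := pow_le_pow_right₀ (hM1.trans (by exact_mod_cast hMn)) (by omega)
    rw [h1]
    gcongr
  have hexsn : ‖exp s0‖ = 1 / r := by
    rw [hexs, norm_div, norm_one, norm_mul, norm_pow, hζr, norm_exp_ofReal_mul_I, mul_one]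
  have hA4 : (M : ℝ) ^ 4 * r ^ 4 ≤ A := by
    have h5 : A ^ 2 = a * ‖U s0‖ * ‖Nc‖ * (1 / r) := by
      have h6 := congrArg norm hA2'
      rw [norm_pow, norm_neg, norm_mul, norm_mul, norm_mul, hexsn, norm_real, norm_real,
        Real.norm_of_nonneg hA.le, Real.norm_of_nonneg ha.le] at h6
      exact h6
    have h6 : ((M : ℝ) ^ 4 * r ^ 4) ^ 2 ≤ A ^ 2 := by
      rw [h5, mul_one_div, le_div_iff₀ hr0]
      have h7 : a * ((M : ℝ) ^ 9 * r ^ 9 / 3) * (M / 2) ≤ a * ‖U s0‖ * ‖Nc‖ := by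
        have : (M : ℝ) ^ 9 * r ^ 9 / 3 ≤ ‖U s0‖ := by linarith
        gcongr
      refine le_trans ?_ h7
      have h8 : 6 ≤ M * a := by
        rw [← div_le_iff₀ ha]
        refine (Nat.le_ceil _).trans ?_
        exact_mod_cast (by omega : ⌈6 / a⌉₊ ≤ M)
      calc ((M : ℝ) ^ 4 * r ^ 4) ^ 2 * r = (M : ℝ) ^ 8 * r ^ 9 := by ring
        _ ≤ (M : ℝ) ^ 8 * r ^ 9 * (M * (M * a / 6)) := by
            apply le_mul_of_one_le_right (by positivity)
            have : (1 : ℝ) ≤ M * a / 6 := by linarith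
            nlinarith
        _ = a * ((M : ℝ) ^ 9 * r ^ 9 / 3) * (M / 2) := by ring
    exact le_of_sq_le_sq h6 hA.le
  -- the inequalities
  have hwvs : ∀ θ : ℝ, |θ| ≤ Real.pi →
      WV (fs V q ζt (η - θ / 2)) (n / q) (rt ^ q) (ζt ^ q) (Hq n q Ht) := by
    intro θ hθ
    refine wv_q hq hW hM65 ?_
    have h1 := abs_le.1 hθ
    have h2 : |η| ≤ 1 / 10 := by
      refine hη8.trans ?_
      rw [div_le_iff₀ hM0]
      linarith
    have h3 := abs_le.1 h2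
    have h4 := Real.pi_lt_d2
    rw [abs_le]
    constructor <;> linarith
  have hins := fun θ (hθ : |θ| ≤ Real.pi) => hin _ M r (ζt ^ q) (Hq n q Ht) η (by omega)
    (hle _ (by omega)) (hwvs θ hθ) hη
  have hpp := fun θ (hθ : |θ| ≤ Real.pi) => pp_q (V := V) (Ht := Ht) (n := n) hq hζ hη1 hθ
  have hsm : ∀ θ : ℝ, |θ| ≤ 1 / M → |θ| ≤ Real.pi := fun θ hθ => by
    have : 1 / (M : ℝ) ≤ 1 := by rw [div_le_one hM0]; exact hM1
    linarith
  have hrinv : 1 / rt < Real.exp ((Λ - 1) / q) := by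
    have h2 := hle (⌈Real.exp (1 - Λ)⌉₊ + 1) (by omega)
    push_cast at h2
    have h3 : Real.exp (1 - Λ) < rt ^ q := by linarith [Nat.le_ceil (Real.exp (1 - Λ))]
    have h4 : Real.exp ((1 - Λ) / q) < rt := by
      by_contra hcon
      push Not at hcon
      have h5 : rt ^ q ≤ Real.exp ((1 - Λ) / q) ^ q := by gcongr
      rw [← Real.exp_nat_mul, mul_div_cancel₀ _ hq'.ne'] at h5
      linarith
    rw [one_div, inv_lt_comm₀ hrt0 (Real.exp_pos _), ← Real.exp_neg]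
    have e : -((Λ - 1) / q) = (1 - Λ) / q := by ring
    rw [e]
    exact h4
  refine ⟨M, r, s0, Nc, A, by omega, ⟨ha, hM65, hr1, hUd, ?_, ?_, hNcn, hU0, hA, hA2', hA4, ?_,
    ?_, ?_, ?_, ?_⟩, ?_⟩
  · rw [hs0, ← ofReal_natCast, re_ofReal_mul, log_re, ht0n, one_div, Real.log_inv, hr,
      Real.log_pow]
    ring
  · rw [hs0, ← ofReal_natCast, im_ofReal_mul, log_im, abs_mul, abs_of_pos hq', hY]
    gcongr
    exact abs_arg_le_pi _
  · intro θ hθ
    rw [← hpp θ (hsm θ hθ)]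
    exact (hins θ (hsm θ hθ)).1 θ hθ
  · intro θ hθ1 hθ
    rw [← hpp θ hθ]
    exact (hins θ hθ).2.1 θ hθ1 hθ
  · have h2 := hle (⌈Real.exp (1 - Λ)⌉₊ + 1) (by omega)
    push_cast at h2
    have h3 : Real.exp (1 - Λ) < r := by linarith [Nat.le_ceil (Real.exp (1 - Λ))]
    have h4 := Real.log_lt_log (Real.exp_pos _) h3
    rw [Real.log_exp] at h4
    linarith
  · intro s hs1 hs2 _
    refine le_trans ?_ hfm
    refine hB0 rt _ hrt0 hrinv ?_ ?_ (exp (s / q)) ?_ ?_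
    · have h3 := hle ⌈|B0|⌉₊ (by omega)
      have h4 : r ≤ (M : ℝ) ^ 9 * r ^ 9 := by
        have h5 : (1 : ℝ) ≤ (M : ℝ) ^ 9 := one_le_pow₀ hM1
        have h6 : r ≤ r ^ 9 := le_self_pow₀ hr1 (by norm_num)
        nlinarith
      linarith [le_abs_self B0, Nat.le_ceil |B0|]
    · intro ζ hζn
      have h3 := hW.2.2.2.1 ζ hζn
      simp only at h3
      rwa [zero_add] at h3
    · rw [norm_exp, hqre, one_div, ← Real.exp_log (inv_pos.2 hrt0)]
      refine Real.exp_le_exp.2 ?_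
      rw [Real.log_inv, le_div_iff₀ hq']
      have h3 : Real.log r = q * Real.log rt := by rw [hr, Real.log_pow]
      linarith
    · rw [norm_exp, hqre]
      exact Real.exp_le_exp.2 (by gcongr)
  · have h3 := hle ⌈a * ‖cc‖ * (Y + 10 + |Λ|)⌉₊ (by omega)
    have h4 : r ≤ (M : ℝ) ^ 4 * r ^ 4 := by
      have h5 : (1 : ℝ) ≤ (M : ℝ) ^ 4 := one_le_pow₀ hM1
      have h6 : r ≤ r ^ 4 := le_self_pow₀ hr1 (by norm_num)
      nlinarith
    linarith [Nat.le_ceil (a * ‖cc‖ * (Y + 10 + |Λ|))]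
  · intro θ hθ
    rw [← hpp θ (hsm θ hθ)]
    exact (hins θ (hsm θ hθ)).2.2 θ hθ

end Pool.Agent.E8helper32.SP
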