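import Pool.Agent.E8helper32.SP.Irr

/-!
# Essential singularities: the data at one radius, abstract form
-/

set_option autoImplicit false

open Complex MeasureTheory Metric Set Filter Topology ComplexConjugate

namespace Pool.Agent.E8helper32.SP

open Pool.Agent.Y245.SC
open Pool.Agent.E8helper32.SA (Ji JB Ji_diff gauss_ne ray_re theta_re pi_re pi_re' exp_pi exp_pi'
  seg_arc seg_ray seg_symm)
open Pool.Agent.E8helper32.SL (JU lapG ce_of pi_norm er_one gd gd_int gd_pos exp_abs_le)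

variable {a Λ : ℝ} {T U : ℂ → ℂ} {cc : ℂ} {Y : ℝ} {N : ℕ} {r : ℝ} {s0 Nc : ℂ} {A : ℝ}

/-- the phase -/
noncomputable def Pu (U : ℂ → ℂ) (s0 Nc : ℂ) (θ : ℝ) : ℂ :=
  (exp (θ * I) - 1) + (U (s0 + θ * I) / U s0 - 1) / Nc

/-- the data at one radius -/
structure Du (a Λ : ℝ) (cc : ℂ) (U : ℂ → ℂ) (Y : ℝ) (N : ℕ) (r : ℝ) (s0 Nc : ℂ) (A : ℝ) :
    Prop where
  ha : 0 < a
  hN : 65536 ≤ N
  hr : 1 ≤ r
  hU : DifferentiableOn ℂ U (re ⁻¹' Iio Λ)
  hs : s0.re = -Real.log r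
  hsi : |s0.im| ≤ Y
  hNc : (N : ℝ) / 2 ≤ ‖Nc‖
  hU0 : U s0 ≠ 0
  hA : 0 < A
  hA2 : (A : ℂ) ^ 2 = -(a * U s0 * Nc * exp s0)
  hA4 : (N : ℝ) ^ 4 * r ^ 4 ≤ A
  p1 : ∀ θ : ℝ, |θ| ≤ 1 / N → (Pu U s0 Nc θ).re ≤ -(N * θ ^ 2 / 8)
  p2 : ∀ θ : ℝ, 1 / (N : ℝ) ≤ |θ| → |θ| ≤ Real.pi → (Pu U s0 Nc θ).re ≤ -(θ ^ 2 / 16)
  hM : 0 < Λ - 1 + Real.log r
  hmax : ∀ s : ℂ, -Real.log r ≤ s.re → s.re ≤ Λ - 1 → |s.im| ≤ Y + Real.pi →
    ‖U s‖ ≤ 3 * ‖U s0‖
  he : a * ‖cc‖ * (Y + 10 + |Λ|) ≤ A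

/-- the parameter `α` -/
noncomputable def au (s0 : ℂ) (A : ℝ) : ℂ := A * exp (-s0)

/-- the normalisation -/
noncomputable def Wu (N : ℕ) (s0 Nc : ℂ) (A : ℝ) : ℂ :=
  √(A * N) * exp (-s0) * exp (-(A + A / Nc))

/-- the exponent of the logarithm -/
noncomputable def eu (a : ℝ) (cc s0 : ℂ) (A : ℝ) (y : ℂ) : ℂ :=
  exp (-(a / au s0 A * (cc * (s0 + y))))

theorem Du.r0 (D : Du a Λ cc U Y N r s0 Nc A) : 0 < r := by linarith [D.hr]

theorem Du.Nr (D : Du a Λ cc U Y N r s0 Nc A) : (65536 : ℝ) ≤ N := by exact_mod_cast D.hN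

theorem Du.N1 (D : Du a Λ cc U Y N r s0 Nc A) : (1 : ℝ) ≤ N := by linarith [D.Nr]

theorem Du.N0 (D : Du a Λ cc U Y N r s0 Nc A) : Nc ≠ 0 := by
  rw [← norm_pos_iff]
  linarith [D.hNc, D.Nr]

theorem Du.Ac (D : Du a Λ cc U Y N r s0 Nc A) : (A : ℂ) ≠ 0 := ofReal_ne_zero.2 D.hA.ne'

theorem Du.Y0 (D : Du a Λ cc U Y N r s0 Nc A) : 0 ≤ Y := (abs_nonneg _).trans D.hsi

theorem Du.exs (D : Du a Λ cc U Y N r s0 Nc A) : ‖exp s0‖ = 1 / r := by
  rw [norm_exp, D.hs, Real.exp_neg, Real.exp_log D.r0, one_div]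

theorem Du.exn (D : Du a Λ cc U Y N r s0 Nc A) : ‖exp (-s0)‖ = r := by
  rw [norm_exp, neg_re, D.hs, neg_neg, Real.exp_log D.r0]

theorem ee_one (s0 : ℂ) : exp (-s0) * exp s0 = 1 := by
  rw [← exp_add, neg_add_cancel, exp_zero]

theorem Du.af (D : Du a Λ cc U Y N r s0 Nc A) : a / au s0 A * U s0 = -(A / Nc) := by
  unfold au
  have h1 := D.hA2
  have h3 := D.N0
  have h4 := D.Ac
  have h5 : exp (-s0) ≠ 0 := exp_ne_zero _
  have h6 := (ee_one s0)
  have h7 : (a : ℂ) * U s0 * Nc = -((A : ℂ) ^ 2 * exp (-s0)) := by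
    rw [h1]
    linear_combination (-(a : ℂ) * U s0 * Nc) * h6
  rw [div_mul_eq_mul_div, div_eq_iff (mul_ne_zero h4 h5), ← neg_div, div_mul_eq_mul_div,
    eq_div_iff h3]
  linear_combination h7

theorem Du.J (D : Du a Λ cc U Y N r s0 Nc A) (hT : ∀ σ : ℂ, σ.re < Λ → T σ = U σ + cc * σ) {y : ℂ}
    (hy : (s0 + y).re < Λ) :
    Ji a T (au s0 A) (s0 + y) = exp (A * exp y + A / Nc * (U (s0 + y) / U s0)) *
      eu a cc s0 A y * (exp y * exp s0) := by
  unfold Ji eu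
  rw [hT _ hy, ← exp_add, ← exp_add, ← exp_add, ← exp_add]
  congr 1
  have h1 : au s0 A * exp (s0 + y) = A * exp y := by
    unfold au
    rw [exp_add]
    linear_combination (A * exp y) * (ee_one s0)
  have h2 : a / au s0 A * U (s0 + y) = -(A / Nc * (U (s0 + y) / U s0)) := by
    have h3 := D.hU0
    have h4 : U (s0 + y) = U s0 * (U (s0 + y) / U s0) := by field_simp
    rw [h4, ← mul_assoc, D.af, ← h4]
    ring
  rw [h1, mul_add, h2]
  ring

theorem Du.theta (D : Du a Λ cc U Y N r s0 Nc A) (θ : ℝ) : (s0 + θ * I).re < Λ := by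
  rw [add_re, D.hs, theta_re]
  linarith [D.hM]

theorem Du.arc (D : Du a Λ cc U Y N r s0 Nc A)
    (hT : ∀ σ : ℂ, σ.re < Λ → T σ = U σ + cc * σ) :
    Wu N s0 Nc A * ∫ θ in (-Real.pi)..Real.pi, Ji a T (au s0 A) (s0 + θ * I) * I =
      I * (√(A * N) * ∫ θ in (-Real.pi)..Real.pi,
        exp (A * Pu U s0 Nc θ) * (exp (θ * I) * eu a cc s0 A (θ * I))) := by
  rw [← intervalIntegral.integral_const_mul, ← mul_assoc, ← intervalIntegral.integral_const_mul]
  refine intervalIntegral.integral_congr fun θ _ => ?_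
  rw [D.J hT (D.theta θ)]
  unfold Wu
  have e1 : exp (A * Pu U s0 Nc θ) =
      exp (-(A + A / Nc)) * exp (A * exp (θ * I) + A / Nc * (U (s0 + θ * I) / U s0)) := by
    rw [← exp_add]
    congr 1
    unfold Pu
    ring
  rw [e1]
  linear_combination (√(A * N) * exp (-(A + A / Nc)) *
    exp (A * exp (θ * I) + A / Nc * (U (s0 + θ * I) / U s0)) * eu a cc s0 A (θ * I) *
    exp (θ * I) * I) * (ee_one s0)

theorem Du.er_bd (D : Du a Λ cc U Y N r s0 Nc A) {y : ℂ} (hy : ‖y‖ ≤ |Λ| + Real.log r + 4) :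
    ‖a / au s0 A * (cc * (s0 + y))‖ ≤ a * ‖cc‖ * (Y + 10 + |Λ|) / A := by
  have hr := D.r0
  have hA := D.hA
  have ha := D.ha
  have hY := D.Y0
  unfold au
  rw [norm_mul, norm_mul, norm_div, norm_mul, D.exn, norm_real, norm_real,
    Real.norm_of_nonneg ha.le, Real.norm_of_nonneg hA.le]
  have h1 : ‖s0‖ ≤ Real.log r + Y := by
    refine (norm_le_abs_re_add_abs_im _).trans ?_
    rw [D.hs, abs_neg, abs_of_nonneg (Real.log_nonneg D.hr)]
    linarith [D.hsi]
  have h2 : ‖s0 + y‖ ≤ (Y + 10 + |Λ|) * r := by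
    refine (norm_add_le _ _).trans ?_
    have h3 := Real.log_le_sub_one_of_pos hr
    have h4 : 1 ≤ r := D.hr
    have h5 : |Λ| ≤ |Λ| * r := le_mul_of_one_le_right (abs_nonneg _) h4
    have h6 : Y ≤ Y * r := le_mul_of_one_le_right hY h4
    linarith
  calc a / (A * r) * (‖cc‖ * ‖s0 + y‖) ≤ a / (A * r) * (‖cc‖ * ((Y + 10 + |Λ|) * r)) := by
        gcongr
    _ = _ := by field_simp

theorem Du.re_Nn (D : Du a Λ cc U Y N r s0 Nc A) : ‖(A / Nc : ℂ)‖ ≤ A / 100 := by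
  have hA := D.hA
  rw [norm_div, norm_real, Real.norm_of_nonneg hA.le]
  have h1 := D.hNc
  have h2 := D.Nr
  have h3 : 100 ≤ ‖Nc‖ := by linarith
  gcongr

theorem Du.W_norm (D : Du a Λ cc U Y N r s0 Nc A) :
    ‖Wu N s0 Nc A‖ ≤ A * r * Real.exp (-(3 / 4 * A)) := by
  have hA := D.hA
  have hr := D.hr
  unfold Wu
  rw [norm_mul, norm_mul, D.exn, norm_real, Real.norm_of_nonneg (Real.sqrt_nonneg _), norm_exp]
  have h1 : √(A * N) ≤ A := by
    rw [Real.sqrt_le_left hA.le, sq]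
    have h2 : (N : ℝ) ≤ A := by
      refine le_trans ?_ D.hA4
      have h3 : (1 : ℝ) ≤ N := by linarith [D.Nr]
      have h4 : (N : ℝ) ≤ (N : ℝ) ^ 4 := by
        calc (N : ℝ) = (N : ℝ) ^ 1 := (pow_one _).symm
          _ ≤ (N : ℝ) ^ 4 := pow_le_pow_right₀ h3 (by norm_num)
      have h5 : (1 : ℝ) ≤ r ^ 4 := one_le_pow₀ hr
      nlinarith [pow_pos (by linarith : (0 : ℝ) < N) 4]
    gcongr
  have h2 : (-((A : ℂ) + A / Nc)).re ≤ -(3 / 4 * A) := by
    rw [neg_re, add_re, ofReal_re]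
    have h3 := (abs_le.1 ((abs_re_le_norm _).trans D.re_Nn)).1
    linarith
  gcongr

theorem Du.ray (D : Du a Λ cc U Y N r s0 Nc A) (hT : ∀ σ : ℂ, σ.re < Λ → T σ = U σ + cc * σ)
    {c : ℂ} (hc : c = Real.pi * I ∨ c = -(Real.pi * I)) :
    ‖Wu N s0 Nc A * ∫ ρ in (0 : ℝ)..(Λ - 1 + Real.log r), Ji a T (au s0 A) (s0 + (ρ + c))‖ ≤
      Real.exp 1 * Real.exp (Λ - 1) * Real.exp (Λ - 1) * (A ^ 2 * Real.exp (-(A / 2))) := by
  obtain ⟨hc0, hce⟩ := ce_of hc
  have hcn := pi_norm hc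
  have hr := D.r0
  have hA := D.hA
  set M := Λ - 1 + Real.log r with hMdef
  have hM : 0 < M := D.hM
  have hMe : Real.exp M = Real.exp (Λ - 1) * r := by
    rw [hMdef, Real.exp_add, Real.exp_log hr]
  have hcim : |c.im| ≤ Real.pi := by
    refine (abs_im_le_norm c).trans (le_of_eq ?_)
    rw [hcn]
  have h1 : ‖∫ ρ in (0 : ℝ)..M, Ji a T (au s0 A) (s0 + (ρ + c))‖ ≤
      (Real.exp (-(3 / 4 * A)) * Real.exp 1 * Real.exp (Λ - 1)) * |M - 0| := by
    refine intervalIntegral.norm_integral_le_of_norm_le_const fun ρ hρ => ?_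
    rw [uIoc_of_le hM.le] at hρ
    have hy : (s0 + (ρ + c)).re < Λ := by
      rw [add_re, D.hs, ray_re hc0]; linarith [hρ.2]
    have her : ‖eu a cc s0 A (ρ + c)‖ ≤ Real.exp 1 := by
      refine er_one ((D.er_bd ?_).trans ((div_le_one hA).2 D.he))
      refine (norm_add_le _ _).trans ?_
      rw [norm_real, Real.norm_of_nonneg hρ.1.le, hcn]
      have := le_abs_self Λ
      have := Real.pi_lt_four
      linarith [hρ.2]
    have hen : ‖(exp (ρ + c) : ℂ)‖ = Real.exp ρ := by rw [norm_exp, ray_re hc0]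
    have hX : ‖U (s0 + (ρ + c)) / U s0‖ ≤ 3 := by
      have h2 := D.hmax (s0 + (ρ + c)) (by
        rw [add_re, D.hs, ray_re hc0]; linarith [hρ.1]) (by
        rw [add_re, D.hs, ray_re hc0]; linarith [hρ.2]) (by
        have h3 : (s0 + (ρ + c)).im = s0.im + c.im := by simp
        rw [h3]
        exact (abs_add_le _ _).trans (add_le_add D.hsi hcim))
      have h3 := norm_pos_iff.2 D.hU0
      rw [norm_div, div_le_iff₀ h3]
      exact h2
    rw [D.J hT hy, norm_mul, norm_mul, norm_exp, norm_mul, hen, D.exs]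
    have h2 : ((A : ℂ) * exp (ρ + c) + A / Nc * (U (s0 + (ρ + c)) / U s0)).re ≤
        -(3 / 4 * A) := by
      rw [hce, add_re, ← ofReal_mul, ofReal_re]
      have h3 : (A / Nc * (U (s0 + (ρ + c)) / U s0)).re ≤ A / 100 * 3 := by
        refine (re_le_norm _).trans ?_
        rw [norm_mul]
        have := D.re_Nn
        gcongr
      have h4 : 1 ≤ Real.exp ρ := Real.one_le_exp hρ.1.le
      nlinarith
    have h3 : Real.exp ρ * (1 / r) ≤ Real.exp (Λ - 1) := by
      rw [mul_one_div, div_le_iff₀ hr, ← hMe]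
      exact Real.exp_le_exp.2 hρ.2
    gcongr
  have h2 := D.W_norm
  have h3 : M ≤ Real.exp M := by linarith [Real.add_one_le_exp M]
  rw [sub_zero, abs_of_pos hM] at h1
  rw [norm_mul]
  have h4 : r * r ≤ A := by
    refine le_trans ?_ D.hA4
    have h5 : (1 : ℝ) ≤ (N : ℝ) ^ 4 := one_le_pow₀ (by linarith [D.Nr])
    have h6 : r * r ≤ r ^ 4 := by
      have := D.hr
      calc r * r = r ^ 2 := by ring
        _ ≤ r ^ 4 := pow_le_pow_right₀ this (by norm_num)
    nlinarith [pow_pos hr 4]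
  have h5 : Real.exp (-(3 / 4 * A)) * Real.exp (-(3 / 4 * A)) ≤ Real.exp (-(A / 2)) := by
    rw [← Real.exp_add]
    exact Real.exp_le_exp.2 (by linarith)
  calc ‖Wu N s0 Nc A‖ * ‖∫ ρ in (0 : ℝ)..M, Ji a T (au s0 A) (s0 + (ρ + c))‖
      ≤ (A * r * Real.exp (-(3 / 4 * A))) *
        ((Real.exp (-(3 / 4 * A)) * Real.exp 1 * Real.exp (Λ - 1)) * (Real.exp (Λ - 1) * r)) := by
        rw [← hMe]
        gcongr
        exact h1.trans (by gcongr)
    _ = Real.exp 1 * Real.exp (Λ - 1) * Real.exp (Λ - 1) * (A * (r * r) *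
        (Real.exp (-(3 / 4 * A)) * Real.exp (-(3 / 4 * A)))) := by ring
    _ ≤ Real.exp 1 * Real.exp (Λ - 1) * Real.exp (Λ - 1) * (A * A * Real.exp (-(A / 2))) := by
        gcongr
    _ = _ := by ring

theorem Du.AN (D : Du a Λ cc U Y N r s0 Nc A) : (N : ℝ) ^ 4 ≤ A := by
  refine le_trans ?_ D.hA4
  exact le_mul_of_one_le_right (by positivity) (one_le_pow₀ D.hr)

theorem Du.A1 (D : Du a Λ cc U Y N r s0 Nc A) : 1 ≤ A := by
  refine le_trans ?_ D.AN
  exact one_le_pow₀ D.N1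

theorem Du.far (D : Du a Λ cc U Y N r s0 Nc A) {C : ℝ}
    (hC : ∀ σ1 : ℂ, σ1.re = Λ - 1 → |σ1.im| ≤ Y + Real.pi → ∀ α : ℂ, 1 ≤ ‖α‖ →
      ‖seg (Ji a T α) σ1 (σ1 + 2 * Real.pi * I)‖ ≤ C * Real.exp ((α * exp σ1).re)) :
    ‖Wu N s0 Nc A * seg (fun y => Ji a T (au s0 A) (s0 + y))
      (((Λ - 1 + Real.log r : ℝ) : ℂ) + -(Real.pi * I))
      (((Λ - 1 + Real.log r : ℝ) : ℂ) + Real.pi * I)‖ ≤
      |C| * (A ^ 2 * Real.exp (-(A / 2))) := by
  have hr := D.r0
  have hA := D.hA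
  set σ1 : ℂ := s0 + (((Λ - 1 + Real.log r : ℝ) : ℂ) + -(Real.pi * I)) with hσ1
  have hre : σ1.re = Λ - 1 := by
    rw [hσ1, add_re, D.hs, ray_re pi_re']; ring
  have him : |σ1.im| ≤ Y + Real.pi := by
    have h1 : σ1.im = s0.im - Real.pi := by
      rw [hσ1]; simp; ring
    rw [h1]
    have h2 := D.hsi
    have h3 := Real.pi_pos
    rw [abs_le] at h2 ⊢
    constructor <;> linarith
  have hα : 1 ≤ ‖au s0 A‖ := by
    unfold au
    rw [norm_mul, D.exn, norm_real, Real.norm_of_nonneg hA.le]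
    nlinarith [D.hr, D.A1]
  have e1 : seg (fun y => Ji a T (au s0 A) (s0 + y))
      (((Λ - 1 + Real.log r : ℝ) : ℂ) + -(Real.pi * I))
      (((Λ - 1 + Real.log r : ℝ) : ℂ) + Real.pi * I) =
      seg (Ji a T (au s0 A)) σ1 (σ1 + 2 * Real.pi * I) := by
    unfold seg
    refine intervalIntegral.integral_congr fun t _ => ?_
    have e2 : (s0 + ((((Λ - 1 + Real.log r : ℝ) : ℂ) + -(Real.pi * I)) +
        t * ((((Λ - 1 + Real.log r : ℝ) : ℂ) + Real.pi * I) -
        (((Λ - 1 + Real.log r : ℝ) : ℂ) + -(Real.pi * I)))) : ℂ) =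
        σ1 + t * (σ1 + 2 * Real.pi * I - σ1) := by
      rw [hσ1]
      ring
    have e3 : ((((Λ - 1 + Real.log r : ℝ) : ℂ) + Real.pi * I) -
        (((Λ - 1 + Real.log r : ℝ) : ℂ) + -(Real.pi * I)) : ℂ) =
        σ1 + 2 * Real.pi * I - σ1 := by
      ring
    simp only
    rw [e2, e3]
  have h1 := hC σ1 hre him _ hα
  have h2 : (au s0 A * exp σ1).re ≤ 0 := by
    have e2 : au s0 A * exp σ1 = ((-(A * Real.exp (Λ - 1 + Real.log r)) : ℝ) : ℂ) := by
      rw [hσ1, exp_add, exp_pi']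
      unfold au
      have := (ee_one s0)
      push_cast
      linear_combination (-(A : ℂ) * exp (((Λ : ℂ) - 1 + (Real.log r : ℂ)))) * this
    rw [e2, ofReal_re]
    have : 0 < A * Real.exp (Λ - 1 + Real.log r) := by positivity
    linarith
  have h3 : ‖seg (Ji a T (au s0 A)) σ1 (σ1 + 2 * Real.pi * I)‖ ≤ |C| := by
    refine h1.trans ?_
    calc C * Real.exp ((au s0 A * exp σ1).re)
        ≤ |C| * Real.exp ((au s0 A * exp σ1).re) := by
          gcongr; exact le_abs_self C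
      _ ≤ |C| * 1 := by gcongr; exact Real.exp_le_one_iff.2 h2
      _ = |C| := mul_one _
  rw [e1, norm_mul]
  have h4 : r ≤ A := by
    refine le_trans ?_ D.hA4
    have h5 : (1 : ℝ) ≤ (N : ℝ) ^ 4 := one_le_pow₀ D.N1
    have h6 : r ≤ r ^ 4 := le_self_pow₀ D.hr (by norm_num)
    nlinarith [pow_pos hr 4]
  have h5 : Real.exp (-(3 / 4 * A)) ≤ Real.exp (-(A / 2)) := Real.exp_le_exp.2 (by linarith)
  calc ‖Wu N s0 Nc A‖ * ‖seg (Ji a T (au s0 A)) σ1 (σ1 + 2 * Real.pi * I)‖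
      ≤ (A * r * Real.exp (-(3 / 4 * A))) * |C| := by
        have := D.W_norm
        gcongr
    _ ≤ (A * A * Real.exp (-(A / 2))) * |C| := by gcongr
    _ = _ := by ring

theorem Du.dom (D : Du a Λ cc U Y N r s0 Nc A) {θ : ℝ} (hθ : θ ∈ Icc (-Real.pi) Real.pi) :
    Real.exp ((A * Pu U s0 Nc θ).re) ≤ gd (θ * √(A * N)) := by
  have hA := D.hA
  have hN1 := D.N1
  have hN0 : (0 : ℝ) < N := by linarith
  rw [re_ofReal_mul]
  have hsq : √(A * N) ^ 2 = A * N := Real.sq_sqrt (by positivity)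
  rcases le_total |θ| (1 / N) with h | h
  · have h1 := D.p1 θ h
    have h2 : A * (Pu U s0 Nc θ).re ≤ -(1 / 8) * (θ * √(A * N)) ^ 2 := by
      rw [mul_pow, hsq]
      have h3 := mul_le_mul_of_nonneg_left h1 hA.le
      linarith
    refine (Real.exp_le_exp.2 h2).trans ?_
    unfold gd
    have : 0 ≤ 512 * (1 + (θ * √(A * N)) ^ 2)⁻¹ := by positivity
    linarith
  · have h1 := D.p2 θ h (abs_le.2 ⟨hθ.1, hθ.2⟩)
    have h2 : A * (Pu U s0 Nc θ).re ≤ -(|θ * √(A * N)| / 16) := by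
      have h3 := mul_le_mul_of_nonneg_left h1 hA.le
      have h4 : |θ * √(A * N)| ≤ A * θ ^ 2 := by
        rw [abs_mul, abs_of_nonneg (Real.sqrt_nonneg _), ← sq_abs θ]
        have h5 : √(A * N) ≤ A * |θ| := by
          have h6 : √(A * N) ≤ A * (1 / N) := by
            rw [Real.sqrt_le_left (by positivity)]
            have h7 : (N : ℝ) ^ 3 ≤ A := by
              refine le_trans ?_ D.AN
              exact pow_le_pow_right₀ hN1 (by norm_num)
            have h8 : A * N = A * N ^ 3 * (1 / N) ^ 2 := by field_simp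
            rw [h8, mul_pow, sq A]
            gcongr
          exact h6.trans (by gcongr)
        calc |θ| * √(A * N) ≤ |θ| * (A * |θ|) := by gcongr
          _ = A * |θ| ^ 2 := by ring
      linarith
    refine (Real.exp_le_exp.2 h2).trans ((exp_abs_le _).trans ?_)
    unfold gd
    have : 0 ≤ Real.exp (-(1 / 8) * (θ * √(A * N)) ^ 2) := (Real.exp_pos _).le
    linarith

theorem Du.contU (D : Du a Λ cc U Y N r s0 Nc A) : Continuous fun θ : ℝ => U (s0 + θ * I) := by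
  rw [← continuousOn_univ]
  exact D.hU.continuousOn.comp (by fun_prop : Continuous fun θ : ℝ =>
    s0 + θ * I).continuousOn (fun θ _ => D.theta θ)

theorem Du.cont (D : Du a Λ cc U Y N r s0 Nc A) :
    ContinuousOn (fun θ : ℝ => (A : ℂ) * Pu U s0 Nc θ) (Icc (-Real.pi) Real.pi) := by
  unfold Pu
  refine Continuous.continuousOn ?_
  refine continuous_const.mul (Continuous.add (by fun_prop) ?_)
  exact ((D.contU.div_const _).sub continuous_const).div_const _

theorem Du.th (D : Du a Λ cc U Y N r s0 Nc A) {θ : ℝ} (hθ : |θ| ≤ 4) :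
    ‖(θ * I : ℂ)‖ ≤ |Λ| + Real.log r + 4 := by
  rw [norm_mul, norm_I, mul_one, norm_real, Real.norm_eq_abs]
  have := abs_nonneg Λ
  have := Real.log_nonneg D.hr
  linarith

/-- **The abstract form.** -/
theorem partU (hJU : JU a Λ T) (hTd : DifferentiableOn ℂ T (re ⁻¹' Iio Λ))
    (hT : ∀ σ : ℂ, σ.re < Λ → T σ = U σ + cc * σ) {C1 : ℝ}
    (hseq : ∀ k : ℕ, ∃ (N : ℕ) (r : ℝ) (s0 Nc : ℂ) (A : ℝ), k ≤ N ∧
      Du a Λ cc U Y N r s0 Nc A ∧ ∀ θ : ℝ, |θ| ≤ 1 / N → ‖Pu U s0 Nc θ + N * θ ^ 2 / 2‖ ≤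
        C1 * ((N : ℝ) ^ (7 / 8 : ℝ) * θ ^ 2 + (N : ℝ) ^ 2 * |θ| ^ 3)) : False := by
  obtain ⟨C, hC⟩ := hJU (Λ - 1) (Y + Real.pi) (by linarith)
  choose N r s0 Nc A hNk D p3 using hseq
  have hNt : Tendsto N atTop atTop := tendsto_atTop_mono hNk tendsto_id
  have hNR : Tendsto (fun k => (N k : ℝ)) atTop atTop := tendsto_natCast_atTop_atTop.comp hNt
  have hAt : Tendsto A atTop atTop := by
    refine tendsto_atTop_mono (fun k => ?_) hNR
    refine le_trans ?_ (D k).AN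
    exact le_self_pow₀ (D k).N1 (by norm_num)
  have hANt : Tendsto (fun k => A k * N k) atTop atTop := hAt.atTop_mul_atTop₀ hNR
  -- the arc
  have hlap := lapG (R := fun k => A k * N k) hANt
    (H := fun k θ => (A k : ℂ) * Pu U (s0 k) (Nc k) θ)
    (B := fun k θ => exp (θ * I) * eu a cc (s0 k) (A k) (θ * I)) (g := gd)
    (m := 1 / 2) (C := Real.exp 1) (B0 := 1) gd_int gd_pos
    (Eventually.of_forall fun k => (D k).cont) (Eventually.of_forall fun k => by
      unfold eu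
      exact Continuous.continuousOn (by fun_prop))
    (Eventually.of_forall fun k θ hθ => (D k).dom hθ)
    (Eventually.of_forall fun k θ hθ => by
      have h4 : |θ| ≤ 4 := (abs_le.2 ⟨hθ.1, hθ.2⟩).trans Real.pi_lt_four.le
      rw [norm_mul, norm_exp_ofReal_mul_I, one_mul]
      exact er_one (((D k).er_bd ((D k).th h4)).trans ((div_le_one (D k).hA).2 (D k).he))) ?_ ?_
  · -- the conclusion
    have hz : Tendsto (fun k => A k ^ 2 * Real.exp (-(A k / 2))) atTop (𝓝 0) := by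
      have h1 := (Real.tendsto_pow_mul_exp_neg_atTop_nhds_zero 2).comp
        (hAt.atTop_div_const (show (0 : ℝ) < 2 by norm_num))
      have h2 := h1.const_mul 4
      rw [mul_zero] at h2
      refine h2.congr fun k => ?_
      simp only [Function.comp_apply]
      ring
    have hdec : ∀ k, I * (√(A k * N k) * ∫ θ in (-Real.pi)..Real.pi,
        exp (A k * Pu U (s0 k) (Nc k) θ) * (exp (θ * I) * eu a cc (s0 k) (A k) (θ * I))) =
        Wu (N k) (s0 k) (Nc k) (A k) * seg (fun y => Ji a T (au (s0 k) (A k)) (s0 k + y))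
          (((Λ - 1 + Real.log (r k) : ℝ) : ℂ) + -(Real.pi * I))
          (((Λ - 1 + Real.log (r k) : ℝ) : ℂ) + Real.pi * I) -
        Wu (N k) (s0 k) (Nc k) (A k) * (∫ ρ in (0 : ℝ)..(Λ - 1 + Real.log (r k)),
          Ji a T (au (s0 k) (A k)) (s0 k + (ρ + Real.pi * I))) +
        Wu (N k) (s0 k) (Nc k) (A k) * ∫ ρ in (0 : ℝ)..(Λ - 1 + Real.log (r k)),
          Ji a T (au (s0 k) (A k)) (s0 k + (ρ + -(Real.pi * I))) := by
      intro k
      rw [← (D k).arc hT]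
      set M := Λ - 1 + Real.log (r k) with hMdef
      have hM : 0 < M := (D k).hM
      set K : ℂ → ℂ := fun y => Ji a T (au (s0 k) (A k)) (s0 k + y) with hK
      have hKd : DifferentiableOn ℂ K (re ⁻¹' Iio (M + 1)) := by
        refine (Ji_diff (a := a) hTd (au (s0 k) (A k))).comp
          (fun y _ => (differentiableAt_id.const_add _).differentiableWithinAt) fun y hy => ?_
        rw [mem_preimage, mem_Iio] at hy
        rw [mem_preimage, mem_Iio]
        show (s0 k + y).re < Λ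
        rw [add_re, (D k).hs]
        rw [hMdef] at hy
        linarith
      obtain ⟨hadd, -⟩ := t_SEG (re ⁻¹' Iio (M + 1)) K
        (isOpen_Iio.preimage continuous_re) (convex_halfSpace_re_lt _) hKd
      have m1 : (M + -(Real.pi * I) : ℂ) ∈ (re ⁻¹' Iio (M + 1) : Set ℂ) := by
        rw [mem_preimage, ray_re pi_re', mem_Iio]; linarith
      have m2 : (-(Real.pi * I) : ℂ) ∈ (re ⁻¹' Iio (M + 1) : Set ℂ) := by
        rw [mem_preimage, pi_re', mem_Iio]; linarith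
      have m3 : (Real.pi * I : ℂ) ∈ (re ⁻¹' Iio (M + 1) : Set ℂ) := by
        rw [mem_preimage, pi_re, mem_Iio]; linarith
      have m4 : (M + Real.pi * I : ℂ) ∈ (re ⁻¹' Iio (M + 1) : Set ℂ) := by
        rw [mem_preimage, ray_re pi_re, mem_Iio]; linarith
      have a1 := hadd _ m1 _ m2 _ m3
      have a2 := hadd _ m1 _ m3 _ m4
      rw [← a2, ← a1, seg_arc, seg_ray _ _ hM, seg_symm, seg_ray _ _ hM]
      ring
    have z1 : Tendsto (fun k => |C| * (A k ^ 2 * Real.exp (-(A k / 2)))) atTop (𝓝 0) := by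
      have := hz.const_mul |C|
      rwa [mul_zero] at this
    have z2 : Tendsto (fun k => Real.exp 1 * Real.exp (Λ - 1) * Real.exp (Λ - 1) *
        (A k ^ 2 * Real.exp (-(A k / 2)))) atTop (𝓝 0) := by
      have := hz.const_mul (Real.exp 1 * Real.exp (Λ - 1) * Real.exp (Λ - 1))
      rwa [mul_zero] at this
    have w1 := squeeze_zero_norm (fun k => (D k).far hC) z1
    have w2 := squeeze_zero_norm (fun k => (D k).ray hT (Or.inl rfl)) z2
    have w3 := squeeze_zero_norm (fun k => (D k).ray hT (Or.inr rfl)) z2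
    have w4 := (w1.sub w2).add w3
    rw [sub_zero, add_zero] at w4
    have w5 := (hlap.const_mul I).congr hdec
    have w6 := tendsto_nhds_unique w5 w4
    simp only [mul_one] at w6
    rcases mul_eq_zero.1 w6 with h | h
    · exact I_ne_zero h
    · exact gauss_ne (by norm_num) h
  · -- the phase
    intro u
    have hev : ∀ k, (1 : ℝ) ≤ N k := fun k => (D k).N1
    have hsN : ∀ᶠ k in atTop, |u| < √(A k * N k) / N k := by
      filter_upwards [hNR.eventually_gt_atTop |u|] with k hk2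
      have hk := hev k
      have hNp : (0 : ℝ) < N k := by linarith
      refine hk2.trans_le ?_
      rw [le_div_iff₀ hNp]
      refine Real.le_sqrt_of_sq_le ?_
      have h4 := (D k).AN
      calc ((N k : ℝ) * N k) ^ 2 = (N k : ℝ) ^ 4 * 1 := by ring
        _ ≤ A k * N k := by
            have := (D k).hA
            gcongr
    rw [tendsto_iff_norm_sub_tendsto_zero]
    have hb : Tendsto (fun k => C1 * (u ^ 2 * (N k : ℝ) ^ (-(1 / 8) : ℝ) +
        |u| ^ 3 * (N k : ℝ)⁻¹)) atTop (𝓝 (C1 * (u ^ 2 * 0 + |u| ^ 3 * 0))) := by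
      refine (((tendsto_rpow_neg_atTop (by norm_num : (0 : ℝ) < 1 / 8)).comp hNR).const_mul
        (u ^ 2) |>.add ((tendsto_inv_atTop_zero.comp hNR).const_mul (|u| ^ 3))).const_mul C1
    rw [mul_zero, mul_zero, add_zero, mul_zero] at hb
    have hC1 : 0 ≤ C1 := by
      have h1 := p3 0 (1 / N 0) (by rw [abs_of_nonneg (by positivity)])
      have hNp : (0 : ℝ) < N 0 := by linarith [hev 0]
      have h2 : 0 < (N 0 : ℝ) ^ (7 / 8 : ℝ) * (1 / N 0) ^ 2 + (N 0 : ℝ) ^ 2 * |1 / (N 0 : ℝ)| ^ 3 := by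
        positivity
      have h3 := (norm_nonneg _).trans h1
      by_contra hcon
      push Not at hcon
      nlinarith
    refine squeeze_zero' (Eventually.of_forall fun k => norm_nonneg _) ?_ hb
    filter_upwards [hsN] with k hk2
    have hk := hev k
    have hNp : (0 : ℝ) < N k := by linarith
    have a1 := (D k).hA
    set s := √(A k * N k) with hs
    have hs0 : 0 < s := Real.sqrt_pos.2 (by positivity)
    have hAN : A k * N k = s ^ 2 := (Real.sq_sqrt (by positivity)).symm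
    have b1 : |u / s| ≤ 1 / N k := by
      rw [abs_div, abs_of_pos hs0, div_le_div_iff₀ hs0 hNp]
      rw [lt_div_iff₀ hNp] at hk2
      linarith
    have b2 := p3 k (u / s) b1
    have e1 : (A k : ℂ) * Pu U (s0 k) (Nc k) (u / s) -
        ((-(1 / 2 * u ^ 2) : ℝ) : ℂ) =
        (A k : ℂ) * (Pu U (s0 k) (Nc k) (u / s) + N k * ((u / s : ℝ) : ℂ) ^ 2 / 2) := by
      have e2 : (A k : ℂ) * (N k * ((u / s : ℝ) : ℂ) ^ 2 / 2) = ((1 / 2 * u ^ 2 : ℝ) : ℂ) := by
        have e3 : A k * (N k * (u / s) ^ 2 / 2) = 1 / 2 * u ^ 2 := by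
          rw [div_pow]
          field_simp
          linear_combination (u ^ 2) * hAN
        exact_mod_cast e3
      rw [mul_add, e2]
      push_cast
      ring
    rw [e1, norm_mul, Complex.norm_real, Real.norm_eq_abs, abs_of_pos a1]
    refine (mul_le_mul_of_nonneg_left b2 a1.le).trans ?_
    have e4 : A k * (C1 * ((N k : ℝ) ^ (7 / 8 : ℝ) * (u / s) ^ 2 +
        (N k : ℝ) ^ 2 * |u / s| ^ 3)) =
        C1 * (u ^ 2 * (N k : ℝ) ^ (-(1 / 8) : ℝ) + |u| ^ 3 * (N k / s)) := by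
      have e5 : (N k : ℝ) ^ (-(1 / 8) : ℝ) = (N k : ℝ) ^ (7 / 8 : ℝ) / N k := by
        rw [show (-(1 / 8) : ℝ) = 7 / 8 - 1 by norm_num, Real.rpow_sub hNp, Real.rpow_one]
      rw [e5, abs_div, abs_of_pos hs0, div_pow, div_pow]
      have hs1 : s ≠ 0 := hs0.ne'
      have hN1 : (N k : ℝ) ≠ 0 := hNp.ne'
      have e6 : A k = s ^ 2 / N k := by
        rw [eq_div_iff hN1]
        exact hAN
      rw [e6]
      field_simp
    rw [e4]
    have e7 : N k / s ≤ (N k : ℝ)⁻¹ := by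
      rw [div_le_iff₀ hs0, inv_mul_eq_div, le_div_iff₀ hNp]
      refine Real.le_sqrt_of_sq_le ?_
      have h4 := (D k).AN
      calc ((N k : ℝ) * N k) ^ 2 = (N k : ℝ) ^ 4 * 1 := by ring
        _ ≤ A k * N k := by gcongr
    gcongr
  · -- the factor
    intro u
    have hst : Tendsto (fun k => √(A k * N k)) atTop atTop :=
      Real.tendsto_sqrt_atTop.comp hANt
    have hinv' : Tendsto (fun k => u / √(A k * N k)) atTop (𝓝 0) := hst.const_div_atTop u
    have hinv : Tendsto (fun k => |u / √(A k * N k)|) atTop (𝓝 0) := by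
      have := hinv'.abs
      rwa [abs_zero] at this
    have h4 : Tendsto (fun k => exp ((u / √(A k * N k) : ℝ) * I)) atTop (𝓝 1) := by
      have h5 : Tendsto (fun k => exp ((u / √(A k * N k) : ℝ) * I)) atTop
          (𝓝 (exp (((0 : ℝ) : ℂ) * I))) :=
        (continuous_exp.tendsto _).comp
          (((continuous_ofReal.tendsto _).comp hinv').mul_const _)
      rwa [ofReal_zero, zero_mul, exp_zero] at h5
    have h5 : Tendsto (fun k => eu a cc (s0 k) (A k) ((u / √(A k * N k) : ℝ) * I)) atTop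
        (𝓝 1) := by
      have h6 : Tendsto (fun k => -(a / au (s0 k) (A k) *
          (cc * (s0 k + (u / √(A k * N k) : ℝ) * I)))) atTop (𝓝 0) := by
        refine squeeze_zero_norm' ?_ (hAt.const_div_atTop (a * ‖cc‖ * (Y + 10 + |Λ|)))
        filter_upwards [hinv.eventually (ge_mem_nhds (show (0 : ℝ) < 4 by norm_num))] with k h
        rw [norm_neg]
        exact (D k).er_bd ((D k).th h)
      have h7 := (continuous_exp.tendsto _).comp h6
      rw [exp_zero] at h7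
      exact h7
    have h6 := h4.mul h5
    rw [mul_one] at h6
    exact h6

end Pool.Agent.E8helper32.SP
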