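import Pool.Agent.E8helper32.SP.Lc
import Pool.Agent.E8helper32.SL.Vg

/-!
# Functions with isolated singularities; extension to the plane
-/

set_option autoImplicit false

open Complex Metric Set Filter Topology ComplexConjugate

namespace Pool.Agent.E8helper32.SP

open Pool.Agent.E8helper32.SA (eqOn_convex disc_lemma)

/-- punctured discs are connected -/
theorem pball_conn {z : ℂ} {ε : ℝ} (hε : 0 < ε) : IsPreconnected (ball z ε \ {z}) := by
  have h1 : ball z ε \ {z} = (fun τ : ℂ => z + exp τ) '' (re ⁻¹' Iio (Real.log ε)) := by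
    ext w
    constructor
    · rintro ⟨hw, hne⟩
      have h0 : w - z ≠ 0 := sub_ne_zero.2 hne
      refine ⟨log (w - z), ?_, ?_⟩
      · rw [mem_preimage, log_re, mem_Iio]
        refine Real.log_lt_log (norm_pos_iff.2 h0) ?_
        rwa [mem_ball, dist_eq_norm] at hw
      · simp only
        rw [exp_log h0, add_sub_cancel]
    · rintro ⟨τ, hτ, rfl⟩
      refine ⟨?_, ?_⟩
      · rw [mem_ball, dist_eq_norm, add_sub_cancel_left, norm_exp, ← Real.lt_log_iff_exp_lt hε]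
        exact hτ
      · rw [mem_singleton_iff]
        intro h
        exact exp_ne_zero τ (by simp at h)
  rw [h1]
  exact (convex_halfSpace_re_lt _).isPreconnected.image _
    (continuous_const.add continuous_exp).continuousOn

/-- identity theorem for functions with isolated singularities -/
theorem id_iso {V : Set ℂ} (hV : IsPreconnected V) {F : ℂ → ℂ}
    (hF : ∀ z ∈ V, ∀ᶠ w in 𝓝[≠] z, DifferentiableAt ℂ F w) {z0 : ℂ} (hz0 : z0 ∈ V)
    (h0 : ∀ᶠ w in 𝓝[≠] z0, F w = 0) : ∀ z ∈ V, ∀ᶠ w in 𝓝[≠] z, F w = 0 := by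
  set A : Set ℂ := {z | ∀ᶠ w in 𝓝[≠] z, F w = 0} with hA
  have hpt : ∀ z ∈ A, ∃ ε : ℝ, 0 < ε ∧ ∀ w ∈ ball z ε, w ≠ z → F w = 0 := by
    intro z hz
    obtain ⟨ε, hε, h1⟩ := Metric.eventually_nhds_iff_ball.1 (eventually_nhdsWithin_iff.1 hz)
    exact ⟨ε, hε, fun w hw hne => h1 w hw hne⟩
  have hnear : ∀ (z : ℂ) (ε : ℝ), (∀ w ∈ ball z ε, w ≠ z → F w = 0) → ∀ w ∈ ball z ε, w ≠ z →
      ∀ᶠ y in 𝓝 w, F y = 0 := by
    intro z ε h w hw hne
    filter_upwards [isOpen_ball.mem_nhds hw, isOpen_ne.mem_nhds hne] with y h1 h2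
    exact h y h1 h2
  have hAo : IsOpen A := by
    rw [isOpen_iff_mem_nhds]
    intro z hz
    obtain ⟨ε, hε, h1⟩ := hpt z hz
    filter_upwards [isOpen_ball.mem_nhds (mem_ball_self hε)] with w hw
    by_cases hne : w = z
    · rw [hne]; exact hz
    · exact (hnear z ε h1 w hw hne).filter_mono nhdsWithin_le_nhds
  refine hV.subset_of_closure_inter_subset hAo ⟨z0, hz0, h0⟩ ?_
  rintro z ⟨hzc, hzV⟩
  obtain ⟨ε, hε, h1⟩ := Metric.eventually_nhds_iff_ball.1 (eventually_nhdsWithin_iff.1 (hF z hzV))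
  obtain ⟨z', hz', hzz'⟩ := Metric.mem_closure_iff.1 hzc ε hε
  obtain ⟨ε', hε', h2⟩ := hpt z' hz'
  have hz'b : z' ∈ ball z ε := by rwa [mem_ball, dist_comm]
  -- a point near `z'`
  obtain ⟨y, hy1, hy2, hy3, hy4⟩ : ∃ y, y ∈ ball z ε ∧ y ∈ ball z' ε' ∧ y ≠ z ∧ y ≠ z' := by
    have h3 : ∀ᶠ y in 𝓝[≠] z', y ∈ ball z ε ∧ y ∈ ball z' ε' := by
      have h4 : ∀ᶠ y in 𝓝 z', y ∈ ball z ε ∧ y ∈ ball z' ε' :=
        (isOpen_ball.inter isOpen_ball).mem_nhds ⟨hz'b, mem_ball_self hε'⟩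
      exact h4.filter_mono nhdsWithin_le_nhds
    have h4 : ∀ᶠ y in 𝓝[≠] z', y ≠ z := by
      by_cases hzz : z' = z
      · rw [hzz]; exact self_mem_nhdsWithin
      · have h5 : ∀ᶠ y in 𝓝 z', y ≠ z := isOpen_ne.mem_nhds hzz
        exact h5.filter_mono nhdsWithin_le_nhds
    obtain ⟨y, ⟨h5, h6⟩, h7, h8⟩ := (h3.and (h4.and self_mem_nhdsWithin)).exists
    exact ⟨y, h5, h6, h7, h8⟩
  have hd : DifferentiableOn ℂ F (ball z ε \ {z}) := fun w hw =>
    (h1 w hw.1 hw.2).differentiableWithinAt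
  have hpo : IsOpen (ball z ε \ {z}) := isOpen_ball.sdiff isClosed_singleton
  have heq := (hd.analyticOnNhd hpo).eqOn_zero_of_preconnected_of_eventuallyEq_zero
    (pball_conn hε) ⟨hy1, hy3⟩ (hnear z' ε' h2 y hy2 hy4)
  show ∀ᶠ w in 𝓝[≠] z, F w = 0
  rw [eventually_nhdsWithin_iff]
  filter_upwards [isOpen_ball.mem_nhds (mem_ball_self hε)] with w hw hne
  exact heq ⟨hw, hne⟩

/-- the same for two functions -/
theorem id_iso2 {V : Set ℂ} (hV : IsPreconnected V) {F F' : ℂ → ℂ}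
    (hF : ∀ z ∈ V, ∀ᶠ w in 𝓝[≠] z, DifferentiableAt ℂ F w)
    (hF' : ∀ z ∈ V, ∀ᶠ w in 𝓝[≠] z, DifferentiableAt ℂ F' w) {z0 : ℂ} (hz0 : z0 ∈ V)
    (h0 : ∀ᶠ w in 𝓝[≠] z0, F w = F' w) : ∀ z ∈ V, ∀ᶠ w in 𝓝[≠] z, F w = F' w := by
  intro z hz
  have h1 := id_iso hV (F := fun w => F w - F' w)
    (fun z hz => ((hF z hz).and (hF' z hz)).mono fun w hw => hw.1.sub hw.2) hz0
    (h0.mono fun w hw => sub_eq_zero.2 hw) z hz
  exact h1.mono fun w hw => sub_eq_zero.1 hw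

/-- a function that extends across every boundary point of every disc is entire -/
theorem entire_of_ext {φ : ℂ → ℂ} {r : ℝ} (hr : 0 < r) (hφ : DifferentiableOn ℂ φ (ball 0 r))
    (H : ∀ ρ : ℝ, r ≤ ρ → ∀ h : ℂ → ℂ, DifferentiableOn ℂ h (ball 0 ρ) → EqOn h φ (ball 0 r) →
      ∀ x ∈ sphere (0 : ℂ) ρ, ∃ (ε : ℝ) (E : ℂ → ℂ) (z : ℂ), 0 < ε ∧
        DifferentiableOn ℂ E (ball x ε) ∧ z ∈ ball x ε ∩ ball 0 ρ ∧ E =ᶠ[𝓝 z] h) :
    ∃ Φ : ℂ → ℂ, Differentiable ℂ Φ ∧ EqOn Φ φ (ball 0 r) := by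
  have hid : ∀ ρ : ℝ, r ≤ ρ → ∀ h : ℂ → ℂ, DifferentiableOn ℂ h (ball 0 ρ) → h =ᶠ[𝓝 0] φ →
      EqOn h φ (ball 0 r) := fun ρ hρ h hh hev =>
    eqOn_convex (convex_ball _ _) isOpen_ball (hh.mono (ball_subset_ball hρ)) hφ
      (mem_ball_self hr) hev
  have hex : ∀ R : ℝ, r ≤ R → ∃ g : ℂ → ℂ, DifferentiableOn ℂ g (ball 0 R) ∧ g =ᶠ[𝓝 0] φ := by
    intro R hR
    refine disc_lemma hr hR hφ fun ρ hρ0 hρR h hh hev x hx => ?_
    rcases lt_or_ge ρ r with hlt | hge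
    · refine ⟨r - ρ, φ, by linarith, ?_, fun y hy => ?_⟩
      · refine hφ.mono fun y hy => ?_
        rw [mem_sphere_zero_iff_norm] at hx
        rw [mem_ball, dist_eq_norm] at hy
        rw [mem_ball_zero_iff]
        have : ‖y‖ ≤ ‖y - x‖ + ‖x‖ := by
          have := norm_add_le (y - x) x
          rwa [sub_add_cancel] at this
        linarith
      · exact (eqOn_convex (convex_ball _ _) isOpen_ball hh
          (hφ.mono (ball_subset_ball hlt.le)) (mem_ball_self hρ0) hev hy.2).symm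
    · obtain ⟨ε, E, z, hε, hE, hz, hEz⟩ := H ρ hge h hh (hid ρ hge h hh hev) x hx
      refine ⟨ε, E, hε, hE, fun y hy => ?_⟩
      exact eqOn_convex ((convex_ball _ _).inter (convex_ball _ _)) (isOpen_ball.inter isOpen_ball)
        (hE.mono inter_subset_left) (hh.mono inter_subset_right) hz hEz hy
  choose! g hg hgφ using hex
  have hRw : ∀ w : ℂ, r ≤ r + ‖w‖ + 1 := fun w => by have := norm_nonneg w; linarith
  have hgg : ∀ R R' : ℝ, r ≤ R → r ≤ R' → ∀ w : ℂ, w ∈ ball (0 : ℂ) R → w ∈ ball (0 : ℂ) R' →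
      g R w = g R' w := by
    intro R R' hR hR' w h1 h2
    refine eqOn_convex ((convex_ball 0 R).inter (convex_ball 0 R')) (isOpen_ball.inter isOpen_ball)
      ((hg R hR).mono inter_subset_left) ((hg R' hR').mono inter_subset_right) (x := 0)
      ⟨mem_ball_self (by linarith), mem_ball_self (by linarith)⟩
      ((hgφ R hR).trans (hgφ R' hR').symm) ⟨h1, h2⟩
  have hmem : ∀ w : ℂ, w ∈ ball (0 : ℂ) (r + ‖w‖ + 1) := fun w => by
    rw [mem_ball_zero_iff]; linarith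
  refine ⟨fun w => g (r + ‖w‖ + 1) w, fun w => ?_, fun w hw => ?_⟩
  · set R : ℝ := r + ‖w‖ + 1 with hR
    have h1 : DifferentiableAt ℂ (g R) w :=
      (hg R (hRw w)).differentiableAt (isOpen_ball.mem_nhds (hmem w))
    refine h1.congr_of_eventuallyEq ?_
    filter_upwards [isOpen_ball.mem_nhds (hmem w)] with y hy
    exact hgg _ _ (hRw y) (hRw w) y (hmem y) hy
  · exact hid _ (hRw w) _ (hg _ (hRw w)) (hgφ _ (hRw w)) hw

end Pool.Agent.E8helper32.SP
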