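import Pool.Agent.E8helper32.SL.As

/-!
# Multiplicative monodromy of infinite order is impossible
-/

set_option autoImplicit false

open Complex MeasureTheory Metric Set Filter Topology ComplexConjugate

namespace Pool.Agent.E8helper32.SP

open Pool.Agent.Y245.SC
open Pool.Agent.Y953.SC (e1 norm_e1 sum1 coeff_zero)
open Pool.Agent.E8helper32.SA (kers hs_congr family)

/-- a power series with infinitely many zeros in a disc -/
theorem ps_zero {c : ℕ → ℂ} {C K : ℝ} (hC : 0 ≤ C) (hK : 0 ≤ K)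
    (hc : ∀ l, ‖c l‖ ≤ C * (K ^ l / (l.factorial : ℝ))) {Z : Set ℂ} {R : ℝ} (hZ : Z.Infinite)
    (hZR : Z ⊆ closedBall 0 R) (h : ∀ z ∈ Z, HasSum (fun l => c l * z ^ l) 0) (l : ℕ) :
    c l = 0 := by
  have hsum : ∀ ρ : ℝ, 0 ≤ ρ → Summable fun l : ℕ => C * (K ^ l / (l.factorial : ℝ)) * ρ ^ l := by
    intro ρ hρ
    refine ((Real.summable_pow_div_factorial (K * ρ)).mul_left C).congr fun l => ?_
    rw [mul_pow]
    ring
  have hle : ∀ ρ : ℝ, 0 ≤ ρ → ∀ t : ℂ, ‖t‖ ≤ ρ → ∀ l : ℕ,
      ‖c l * t ^ l‖ ≤ C * (K ^ l / (l.factorial : ℝ)) * ρ ^ l := by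
    intro ρ hρ t ht l
    rw [norm_mul, norm_pow]
    have := hc l
    gcongr
  have hFd : Differentiable ℂ fun t => ∑' l, c l * t ^ l := by
    intro t
    have h1 := Complex.differentiableOn_tsum_of_summable_norm (U := ball (0 : ℂ) (‖t‖ + 1))
      (F := fun l t => c l * t ^ l) (hsum (‖t‖ + 1) (by positivity))
      (fun l => ((differentiable_id.pow l).const_mul _).differentiableOn) isOpen_ball
      (fun l w hw => hle _ (by positivity) w (mem_ball_zero_iff.1 hw).le l)
    exact h1.differentiableAt (isOpen_ball.mem_nhds (by rw [mem_ball_zero_iff]; linarith))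
  have hs : ∀ t : ℂ, HasSum (fun l => c l * t ^ l) (∑' l, c l * t ^ l) := by
    intro t
    exact (Summable.of_norm_bounded (hsum ‖t‖ (norm_nonneg _))
      (hle _ (norm_nonneg _) t le_rfl)).hasSum
  obtain ⟨z0, -, hz0⟩ := hZ.exists_accPt_of_subset_isCompact (isCompact_closedBall 0 R) hZR
  rw [accPt_iff_frequently_nhdsNE] at hz0
  have h1 : ∃ᶠ z in 𝓝[≠] z0, (∑' l, c l * z ^ l) = 0 := by
    refine hz0.mono fun z hz => ?_
    exact (hs z).unique (h z hz)
  have h2 := AnalyticOnNhd.eqOn_zero_of_preconnected_of_frequently_eq_zero (U := univ)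
    (f := fun t => ∑' l, c l * t ^ l) (fun z _ => hFd.analyticAt z) isPreconnected_univ
    (mem_univ z0) h1
  refine coeff_zero (fun t => ?_) l
  have h3 := hs t
  have h4 : (∑' l, c l * t ^ l) = 0 := h2 (mem_univ t)
  rwa [h4] at h3

/-- the first moment -/
theorem mom_zero {a : ℝ} (ha : 0 < a) {x X W : ℝ → ℂ} (hx : Continuous x) (hX : Continuous X)
    (hW : Continuous W) {Z : Set ℂ} {R : ℝ} (hZ : Z.Infinite) (hZR : Z ⊆ closedBall 0 R)
    {Δ : ℂ → ℂ} (h : ∀ z ∈ Z, ∀ b : ℂ, ∫ s in (0 : ℝ)..1,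
      (z * X s - b) ^ 2 * kap a ((z * X s - b) * x s) * W s = Δ z) :
    ∫ s in (0 : ℝ)..1, X s * x s * W s = 0 := by
  have hk : S_KAP := Pool.Agent.Y769.SC.kap
  have ha' : (a : ℂ) ≠ 0 := by exact_mod_cast ha.ne'
  obtain ⟨B, hB, hXB, hxB, hWB⟩ : ∃ B : ℝ, 1 ≤ B ∧ (∀ ω ∈ Icc (0 : ℝ) 1, ‖X ω‖ ≤ B) ∧
      (∀ ω ∈ Icc (0 : ℝ) 1, ‖x ω‖ ≤ B) ∧ ∀ ω ∈ Icc (0 : ℝ) 1, ‖W ω‖ ≤ B := by
    obtain ⟨B1, h1⟩ := isCompact_Icc.exists_bound_of_continuousOn (s := Icc (0 : ℝ) 1)
      hX.continuousOn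
    obtain ⟨B2, h2⟩ := isCompact_Icc.exists_bound_of_continuousOn (s := Icc (0 : ℝ) 1)
      hx.continuousOn
    obtain ⟨B3, h3⟩ := isCompact_Icc.exists_bound_of_continuousOn (s := Icc (0 : ℝ) 1)
      hW.continuousOn
    refine ⟨max 1 (max B1 (max B2 B3)), le_max_left _ _, fun ω hω => ?_, fun ω hω => ?_,
      fun ω hω => ?_⟩
    · exact (h1 ω hω).trans ((le_max_left _ _).trans (le_max_right _ _))
    · exact (h2 ω hω).trans ((le_max_left _ _).trans ((le_max_right _ _).trans
        (le_max_right _ _)))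
    · exact (h3 ω hω).trans ((le_max_right _ _).trans ((le_max_right _ _).trans
        (le_max_right _ _)))
  have hB0 : 0 ≤ B := by linarith
  have ce1 : ∀ m, Continuous (fun ω => e1 a (x ω) m) := by
    intro m
    match m with
    | 0 => exact continuous_const
    | 1 => exact continuous_const
    | k + 2 => exact (continuous_const.mul (hx.pow k)).div_const _
  set c : ℕ → ℂ := fun l => ∫ ω in (0 : ℝ)..1, e1 a (x ω) (l + 2) *
    (X ω ^ l / (l.factorial : ℂ)) * W ω with hcdef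
  have hcz : ∀ z ∈ Z, HasSum (fun l => c l * z ^ l) 0 := by
    intro z hz
    have hzX : Continuous fun ω => z * X ω := continuous_const.mul hX
    have f1 := family (e := fun m ω => e1 a (x ω) m) (s := fun ω => z * X ω) (W := W) (C := 1)
      (K := (a + 1) * B) (B := ‖z‖ * B) (D := B) zero_le_one (by positivity) (by positivity) ce1
      hzX hW
      (fun m ω hω => norm_e1 ha hB (hxB ω hω) m) (fun ω hω => by
        rw [norm_mul]; have := hXB ω hω; gcongr) hWB
      (fun t ω _ => sum1 hk ha (x ω) (z * X ω) t)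
      (Δ := Δ z) (fun t => by
        rw [← h z hz (-t)]
        simp only [sub_zero]) 2 (by norm_num)
    refine hs_congr f1 fun l => ?_
    rw [hcdef]
    simp only
    rw [← intervalIntegral.integral_mul_const]
    congr 1
    ext ω
    rw [mul_pow]
    ring
  have hbd : ∀ l, ‖c l‖ ≤ (a * B) * ((a * B * B) ^ l / (l.factorial : ℝ)) := by
    intro l
    have g0 : ‖c l‖ ≤ ((a ^ (l + 1) * B ^ l / (l.factorial : ℝ)) *
        (B ^ l / (l.factorial : ℝ)) * B) * |(1 : ℝ) - 0| := by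
      rw [hcdef]
      refine intervalIntegral.norm_integral_le_of_norm_le_const fun ω hω => ?_
      rw [uIoc_of_le zero_le_one] at hω
      have hω' : ω ∈ Icc (0 : ℝ) 1 := ⟨hω.1.le, hω.2⟩
      have e : e1 a (x ω) (l + 2) = (-(a : ℂ)) ^ (l + 1) * x ω ^ l / (l.factorial : ℂ) := rfl
      rw [e, norm_mul, norm_mul, norm_div, norm_mul, norm_pow, norm_neg, norm_real,
        Real.norm_of_nonneg ha.le, norm_pow, norm_div, norm_pow, Complex.norm_natCast]
      have g1 := hXB ω hω'
      have g2 := hxB ω hω'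
      have g3 := hWB ω hω'
      gcongr
    rw [sub_zero, abs_one, mul_one] at g0
    refine g0.trans ?_
    have hf : (1 : ℝ) ≤ (l.factorial : ℝ) := by exact_mod_cast l.factorial_pos
    have hf0 : (0 : ℝ) < (l.factorial : ℝ) := by linarith
    calc (a ^ (l + 1) * B ^ l / (l.factorial : ℝ)) * (B ^ l / (l.factorial : ℝ)) * B
        ≤ (a ^ (l + 1) * B ^ l / (l.factorial : ℝ)) * (B ^ l / 1) * B := by gcongr
      _ = (a * B) * ((a * B * B) ^ l / (l.factorial : ℝ)) := by
        rw [mul_pow, mul_pow, pow_succ]; ring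
  have h1 := ps_zero (by positivity) (by positivity) hbd hZ hZR hcz 1
  rw [hcdef] at h1
  simp only at h1
  have h2 : (∫ ω in (0 : ℝ)..1, e1 a (x ω) (1 + 2) * (X ω ^ 1 / (Nat.factorial 1 : ℂ)) * W ω) =
      (a : ℂ) ^ 2 * ∫ ω in (0 : ℝ)..1, X ω * x ω * W ω := by
    rw [← intervalIntegral.integral_const_mul]
    congr 1
    ext ω
    have e : e1 a (x ω) (1 + 2) = (-(a : ℂ)) ^ (1 + 1) * x ω ^ 1 / (Nat.factorial 1 : ℂ) := rfl
    rw [e]
    simp
    ring
  rw [h2] at h1
  exact (mul_eq_zero.1 h1).resolve_left (pow_ne_zero _ ha')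

variable {a Λ : ℝ} {T : ℂ → ℂ} {κ b0 : ℂ}

/-- the identity for open paths -/
def OP (a Λ : ℝ) (T : ℂ → ℂ) : Prop := ∀ σ1 : ℂ, σ1.re < Λ → ∀ b : ℂ,
  T (σ1 + 2 * Real.pi * I) - T σ1 =
    seg (fun s => kers a T b s σ1) σ1 (σ1 + 2 * Real.pi * I)

theorem two_pi_re (k : ℤ) (σ : ℂ) : (σ + k * (2 * Real.pi * I)).re = σ.re := by
  have h1 : ((k : ℂ) * (2 * Real.pi * I)).re = 0 := by
    have : ((k : ℂ) * (2 * Real.pi * I)) = ((k * (2 * Real.pi) : ℝ) : ℂ) * I := by
      push_cast; ring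
    rw [this, re_ofReal_mul, I_re, mul_zero]
  rw [add_re, h1, add_zero]

/-- the monodromy of several turns -/
theorem turns (hκ0 : κ ≠ 0)
    (hT : ∀ σ : ℂ, σ.re < Λ → T (σ + 2 * Real.pi * I) - b0 = κ * (T σ - b0)) (k : ℤ) {σ : ℂ}
    (hσ : σ.re < Λ) : T (σ + k * (2 * Real.pi * I)) - b0 = κ ^ k * (T σ - b0) := by
  induction k using Int.induction_on with
  | zero => simp
  | succ i ih =>
    have h1 := hT (σ + i * (2 * Real.pi * I)) (by
      have := two_pi_re i σ
      push_cast at this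
      rw [this]; exact hσ)
    have e : σ + ((i + 1 : ℤ) : ℂ) * (2 * Real.pi * I) =
        σ + i * (2 * Real.pi * I) + 2 * Real.pi * I := by push_cast; ring
    have ih' : T (σ + i * (2 * Real.pi * I)) - b0 = κ ^ (i : ℤ) * (T σ - b0) := by
      rw [← ih]; push_cast; rfl
    rw [e, h1, ih', zpow_add_one₀ hκ0]
    ring
  | pred i ih =>
    have h1 := hT (σ + ((-(i : ℤ) - 1 : ℤ) : ℂ) * (2 * Real.pi * I)) (by
      rw [two_pi_re]; exact hσ)
    have e : σ + ((-(i : ℤ) - 1 : ℤ) : ℂ) * (2 * Real.pi * I) + 2 * Real.pi * I =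
        σ + ((-(i : ℤ) : ℤ) : ℂ) * (2 * Real.pi * I) := by push_cast; ring
    rw [e, ih] at h1
    have h2 : κ * (T (σ + ((-(i : ℤ) - 1 : ℤ) : ℂ) * (2 * Real.pi * I)) - b0) =
        κ * (κ ^ (-(i : ℤ) - 1) * (T σ - b0)) := by
      rw [← h1, zpow_sub_one₀ hκ0]
      field_simp
    exact mul_left_cancel₀ hκ0 h2

theorem exp_turns (k : ℤ) (σ : ℂ) : exp (σ + k * (2 * Real.pi * I)) = exp σ := by
  rw [exp_add, exp_int_mul_two_pi_mul_I, mul_one]

theorem irr (ha : 0 < a) (hOP : OP a Λ T) (hTd : DifferentiableOn ℂ T (re ⁻¹' Iio Λ))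
    (hκ0 : κ ≠ 0) (hκ : ∀ n : ℕ, 0 < n → κ ^ n ≠ 1)
    (hT : ∀ σ : ℂ, σ.re < Λ → T (σ + 2 * Real.pi * I) - b0 = κ * (T σ - b0)) :
    ∀ σ : ℂ, σ.re < Λ → T σ = b0 := by
  have hUo : IsOpen (re ⁻¹' Iio Λ : Set ℂ) := isOpen_Iio.preimage continuous_re
  have hUc : Convex ℝ (re ⁻¹' Iio Λ : Set ℂ) := convex_halfSpace_re_lt Λ
  have hκ1 : κ ≠ 1 := by
    have := hκ 1 one_pos
    rwa [pow_one] at this
  -- the infinite bounded set
  obtain ⟨ε, hZ, hZb⟩ : ∃ ε : ℤ, (range fun k : ℕ => κ ^ (ε * (k : ℤ))).Infinite ∧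
      (range fun k : ℕ => κ ^ (ε * (k : ℤ))) ⊆ closedBall (0 : ℂ) 1 := by
    have hinj : ∀ i j : ℤ, κ ^ i = κ ^ j → i = j := by
      have hlt : ∀ i j : ℤ, i < j → κ ^ i ≠ κ ^ j := by
        intro i j hij h1
        have h2 : κ ^ (j - i) = 1 := by
          rw [zpow_sub₀ hκ0, ← h1, div_self (zpow_ne_zero _ hκ0)]
        obtain ⟨n, hn⟩ : ∃ n : ℕ, (n : ℤ) = j - i := ⟨(j - i).toNat, by omega⟩
        rw [← hn, zpow_natCast] at h2
        exact hκ n (by omega) h2
      intro i j h1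
      rcases lt_trichotomy i j with h2 | h2 | h2
      · exact (hlt i j h2 h1).elim
      · exact h2
      · exact (hlt j i h2 h1.symm).elim
    rcases le_total ‖κ‖ 1 with h1 | h1
    · refine ⟨1, infinite_range_of_injective fun i j hij => ?_, ?_⟩
      · have := hinj _ _ hij
        omega
      · rintro _ ⟨k, rfl⟩
        rw [mem_closedBall_zero_iff]
        simp only
        rw [one_mul, zpow_natCast, norm_pow]
        exact pow_le_one₀ (norm_nonneg _) h1
    · refine ⟨-1, infinite_range_of_injective fun i j hij => ?_, ?_⟩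
      · have := hinj _ _ hij
        omega
      · rintro _ ⟨k, rfl⟩
        rw [mem_closedBall_zero_iff]
        simp only
        rw [neg_one_mul, zpow_neg, zpow_natCast, norm_inv, norm_pow]
        exact inv_le_one_of_one_le₀ (one_le_pow₀ h1)
  -- the moments
  have hmom : ∀ σ1 : ℂ, σ1.re < Λ →
      seg (fun s => (T s - b0) * (exp s - exp σ1) * exp s) σ1 (σ1 + 2 * Real.pi * I) = 0 := by
    intro σ1 hσ1
    have hline : ∀ t : ℝ, σ1 + t * (2 * Real.pi * I) ∈ (re ⁻¹' Iio Λ : Set ℂ) := by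
      intro t
      rw [mem_preimage]
      have : (σ1 + t * (2 * Real.pi * I)).re = σ1.re := by simp
      rw [this]
      exact hσ1
    have hs : Continuous fun t : ℝ => σ1 + t * (2 * Real.pi * I) :=
      continuous_const.add (continuous_ofReal.mul continuous_const)
    have hTc : Continuous fun t : ℝ => T (σ1 + t * (2 * Real.pi * I)) - b0 :=
      (hTd.continuousOn.comp_continuous hs hline).sub continuous_const
    have hE : Continuous fun t : ℝ => exp (σ1 + t * (2 * Real.pi * I)) := hs.cexp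
    have hsub : σ1 + 2 * Real.pi * I - σ1 = 2 * Real.pi * I := by ring
    have h1 := mom_zero ha (x := fun t => exp (σ1 + t * (2 * Real.pi * I)) - exp σ1)
      (X := fun t => T (σ1 + t * (2 * Real.pi * I)) - b0)
      (W := fun t => exp (σ1 + t * (2 * Real.pi * I)) * (2 * Real.pi * I))
      (hE.sub continuous_const) hTc (hE.mul continuous_const) hZ hZb
      (Δ := fun z => z * (T (σ1 + 2 * Real.pi * I) - T σ1)) (by
        rintro _ ⟨k, rfl⟩ b
        simp only
        set m : ℤ := ε * (k : ℤ) with hm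
        have hσm : (σ1 + m * (2 * Real.pi * I)).re < Λ := by rw [two_pi_re]; exact hσ1
        have h2 := hOP _ hσm (b0 + b)
        have e1 : T (σ1 + m * (2 * Real.pi * I) + 2 * Real.pi * I) -
            T (σ1 + m * (2 * Real.pi * I)) = κ ^ m * (T (σ1 + 2 * Real.pi * I) - T σ1) := by
          have h3 := turns hκ0 hT m hσ1
          have h4 := turns hκ0 hT m (σ := σ1 + 2 * Real.pi * I) (by
            have : (σ1 + 2 * Real.pi * I).re = σ1.re := by simp
            rw [this]; exact hσ1)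
          have e : σ1 + m * (2 * Real.pi * I) + 2 * Real.pi * I =
              σ1 + 2 * Real.pi * I + m * (2 * Real.pi * I) := by ring
          rw [e]
          linear_combination h4 - h3
        rw [← e1, h2]
        unfold seg kers
        refine intervalIntegral.integral_congr fun t _ => ?_
        have e2 : σ1 + m * (2 * Real.pi * I) + 2 * Real.pi * I - (σ1 + m * (2 * Real.pi * I)) =
            2 * Real.pi * I := by ring
        have e3 : σ1 + m * (2 * Real.pi * I) + t * (2 * Real.pi * I) =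
            σ1 + t * (2 * Real.pi * I) + m * (2 * Real.pi * I) := by ring
        simp only
        rw [e2, e3, exp_turns, exp_turns]
        have h3 := turns hκ0 hT m (hline t)
        have e4 : T (σ1 + t * (2 * Real.pi * I) + m * (2 * Real.pi * I)) - (b0 + b) =
            κ ^ m * (T (σ1 + t * (2 * Real.pi * I)) - b0) - b := by
          rw [← h3]; ring
        rw [e4]
        ring)
    rw [← h1]
    unfold seg
    refine intervalIntegral.integral_congr fun t _ => ?_
    simp only [hsub]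
    ring
  -- the primitives
  have hAd : DifferentiableOn ℂ (fun s => (T s - b0) * exp s) (re ⁻¹' Iio Λ) :=
    (hTd.sub_const b0).mul differentiable_exp.differentiableOn
  have hBd : DifferentiableOn ℂ (fun s => (T s - b0) * exp s * exp s) (re ⁻¹' Iio Λ) :=
    hAd.mul differentiable_exp.differentiableOn
  obtain ⟨A1, A2⟩ := t_SEG (re ⁻¹' Iio Λ) _ hUo hUc hAd
  obtain ⟨B1, B2⟩ := t_SEG (re ⁻¹' Iio Λ) _ hUo hUc hBd
  intro p0 hp0
  have hp0' : p0 ∈ (re ⁻¹' Iio Λ : Set ℂ) := hp0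
  have hsh : ∀ σ : ℂ, σ.re < Λ → σ + 2 * Real.pi * I ∈ (re ⁻¹' Iio Λ : Set ℂ) := by
    intro σ hσ
    rw [mem_preimage]
    have : (σ + 2 * Real.pi * I).re = σ.re := by simp
    rw [this]; exact hσ
  set A : ℂ → ℂ := fun σ => seg (fun s => (T s - b0) * exp s) p0 σ with hA
  set B : ℂ → ℂ := fun σ => seg (fun s => (T s - b0) * exp s * exp s) p0 σ with hB
  have hAsh : ∀ σ : ℂ, σ.re < Λ → HasDerivAt (fun σ => A (σ + 2 * Real.pi * I) - A σ)
      ((T (σ + 2 * Real.pi * I) - b0) * exp σ - (T σ - b0) * exp σ) σ := by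
    intro σ hσ
    have h1 : HasDerivAt A _ (σ + 2 * Real.pi * I) := A2 p0 hp0' _ (hsh σ hσ)
    have h2 := h1.comp_add_const σ (2 * Real.pi * I)
    have h3 : HasDerivAt A _ σ := A2 p0 hp0' σ hσ
    have h4 := h2.sub h3
    rw [exp_periodic σ] at h4
    exact h4
  have hBsh : ∀ σ : ℂ, σ.re < Λ → HasDerivAt (fun σ => B (σ + 2 * Real.pi * I) - B σ)
      ((T (σ + 2 * Real.pi * I) - b0) * exp σ * exp σ - (T σ - b0) * exp σ * exp σ) σ := by
    intro σ hσ
    have h1 : HasDerivAt B _ (σ + 2 * Real.pi * I) := B2 p0 hp0' _ (hsh σ hσ)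
    have h2 := h1.comp_add_const σ (2 * Real.pi * I)
    have h3 : HasDerivAt B _ σ := B2 p0 hp0' σ hσ
    have h4 := h2.sub h3
    rw [exp_periodic σ] at h4
    exact h4
  have hrel : ∀ σ : ℂ, σ.re < Λ → (B (σ + 2 * Real.pi * I) - B σ) -
      exp σ * (A (σ + 2 * Real.pi * I) - A σ) = 0 := by
    intro σ hσ
    have h1 := A1 p0 hp0' σ hσ _ (hsh σ hσ)
    have h2 := B1 p0 hp0' σ hσ _ (hsh σ hσ)
    have h3 := hmom σ hσ
    have hline : ∀ t : ℝ, σ + t * (2 * Real.pi * I) ∈ (re ⁻¹' Iio Λ : Set ℂ) := by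
      intro t
      rw [mem_preimage]
      have : (σ + t * (2 * Real.pi * I)).re = σ.re := by simp
      rw [this]
      exact hσ
    have hs : Continuous fun t : ℝ => σ + t * (2 * Real.pi * I) :=
      continuous_const.add (continuous_ofReal.mul continuous_const)
    have cA : Continuous fun t : ℝ => (T (σ + t * (2 * Real.pi * I)) - b0) *
        exp (σ + t * (2 * Real.pi * I)) := hAd.continuousOn.comp_continuous hs hline
    have cB : Continuous fun t : ℝ => (T (σ + t * (2 * Real.pi * I)) - b0) *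
        exp (σ + t * (2 * Real.pi * I)) * exp (σ + t * (2 * Real.pi * I)) :=
      hBd.continuousOn.comp_continuous hs hline
    have iA : IntervalIntegrable (fun t : ℝ => exp σ * ((T (σ + t * (2 * Real.pi * I)) - b0) *
        exp (σ + t * (2 * Real.pi * I)) * (2 * Real.pi * I))) volume 0 1 :=
      (continuous_const.mul (cA.mul continuous_const)).intervalIntegrable _ _
    have iB : IntervalIntegrable (fun t : ℝ => (T (σ + t * (2 * Real.pi * I)) - b0) *
        exp (σ + t * (2 * Real.pi * I)) * exp (σ + t * (2 * Real.pi * I)) * (2 * Real.pi * I))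
        volume 0 1 := (cB.mul continuous_const).intervalIntegrable _ _
    have hsub : σ + 2 * Real.pi * I - σ = 2 * Real.pi * I := by ring
    have h4 : seg (fun s => (T s - b0) * (exp s - exp σ) * exp s) σ (σ + 2 * Real.pi * I) =
        seg (fun s => (T s - b0) * exp s * exp s) σ (σ + 2 * Real.pi * I) -
          exp σ * seg (fun s => (T s - b0) * exp s) σ (σ + 2 * Real.pi * I) := by
      unfold seg
      rw [hsub, ← intervalIntegral.integral_const_mul]
      refine Eq.trans ?_ (intervalIntegral.integral_sub iB iA)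
      refine intervalIntegral.integral_congr fun t _ => ?_
      simp only
      ring
    rw [h4] at h3
    simp only [hA, hB]
    rw [← h1, ← h2]
    linear_combination h3
  have hA0 : ∀ σ : ℂ, σ.re < Λ → A (σ + 2 * Real.pi * I) - A σ = 0 := by
    intro σ hσ
    have h1 := (hBsh σ hσ).sub ((Complex.hasDerivAt_exp σ).mul (hAsh σ hσ))
    have h2 : HasDerivAt (fun σ => (B (σ + 2 * Real.pi * I) - B σ) -
        exp σ * (A (σ + 2 * Real.pi * I) - A σ)) 0 σ := by
      refine (hasDerivAt_const σ (0 : ℂ)).congr_of_eventuallyEq ?_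
      filter_upwards [hUo.mem_nhds (x := σ) hσ] with s hs
      exact hrel s hs
    have h3 := h1.unique h2
    have h4 : exp σ * (A (σ + 2 * Real.pi * I) - A σ) = 0 := by linear_combination -h3
    exact (mul_eq_zero.1 h4).resolve_left (exp_ne_zero _)
  have h1 := hAsh p0 hp0
  have h2 : HasDerivAt (fun σ => A (σ + 2 * Real.pi * I) - A σ) 0 p0 := by
    refine (hasDerivAt_const p0 (0 : ℂ)).congr_of_eventuallyEq ?_
    filter_upwards [hUo.mem_nhds (x := p0) hp0] with s hs
    exact hA0 s hs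
  have h3 := h1.unique h2
  rw [hT p0 hp0] at h3
  have h4 : (κ - 1) * exp p0 * (T p0 - b0) = 0 := by linear_combination h3
  have h5 := (mul_eq_zero.1 h4).resolve_left (mul_ne_zero (sub_ne_zero.2 hκ1) (exp_ne_zero _))
  exact sub_eq_zero.1 h5

end Pool.Agent.E8helper32.SP
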