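import Pool.Agent.E8helper32.SP.Et
import Pool.Agent.E8helper32.SL.Gm

/-!
# The local theorem for affine monodromy
-/

set_option autoImplicit false

open Complex MeasureTheory Metric Set Filter Topology ComplexConjugate

namespace Pool.Agent.E8helper32.SP

open Pool.Agent.Results.MP_83fd13_an.BranchSingularities
open Pool.Agent.Y245.SC (seg t_SEG Ess)
open Pool.Agent.Y245.UC (Rf VG)
open Pool.Agent.E8helper32.SA (per per_re exp_add_per log_lift log_eq eqOn_convex branch_norm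
  branch_diff branch_congr branch_ball ext_of_slow convex_cont exp_sub_lt Fz_mem Ji JB)
open Pool.Agent.E8helper32.SL

variable {φ : ℂ → ℂ} {r : ℝ} {w1 : ℂ} {L : ℝ} {G : ℂ → ℂ} {Λ : ℝ} {ℓ : ℂ → ℂ} {a : ℝ}
  {T : ℂ → ℂ} {κ b1 Δ : ℂ}

/-- adding a constant -/
theorem JU.shift (ha : 0 < a) (h : JU a Λ T) (b : ℂ) : JU a Λ fun σ => T σ - b := by
  intro x0 Y hx0
  obtain ⟨C, hC⟩ := h x0 Y hx0
  refine ⟨Real.exp (a * ‖b‖) * |C|, fun σ1 h1 h2 α hα => ?_⟩
  have h3 : seg (Ji a (fun σ => T σ - b) α) σ1 (σ1 + 2 * Real.pi * I) =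
      exp (a / α * b) * seg (Ji a T α) σ1 (σ1 + 2 * Real.pi * I) := by
    unfold seg
    rw [← intervalIntegral.integral_const_mul]
    refine intervalIntegral.integral_congr fun t _ => ?_
    unfold Ji
    simp only
    have e : exp (α * exp (σ1 + t * (σ1 + 2 * Real.pi * I - σ1)) -
        a / α * (T (σ1 + t * (σ1 + 2 * Real.pi * I - σ1)) - b)) = exp (a / α * b) *
        exp (α * exp (σ1 + t * (σ1 + 2 * Real.pi * I - σ1)) -
        a / α * T (σ1 + t * (σ1 + 2 * Real.pi * I - σ1))) := by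
      rw [← exp_add]
      congr 1
      ring
    rw [e]
    ring
  have h4 : ‖exp (a / α * b)‖ ≤ Real.exp (a * ‖b‖) := by
    rw [norm_exp]
    refine Real.exp_le_exp.2 ((re_le_norm _).trans ?_)
    rw [norm_mul, norm_div, norm_real, Real.norm_of_nonneg ha.le]
    have : a / ‖α‖ ≤ a := div_le_self ha.le hα
    gcongr
  rw [h3, norm_mul]
  calc ‖exp (a / α * b)‖ * ‖seg (Ji a T α) σ1 (σ1 + 2 * Real.pi * I)‖
      ≤ Real.exp (a * ‖b‖) * (C * Real.exp ((α * exp σ1).re)) := by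
        have := hC σ1 h1 h2 α hα
        gcongr
    _ ≤ Real.exp (a * ‖b‖) * (|C| * Real.exp ((α * exp σ1).re)) := by
        have := le_abs_self C
        gcongr
    _ = _ := by ring

/-- the monodromy in the coordinate `σ` -/
theorem Ts_mul (hC : Co φ r w1 L Λ ℓ) (hκ : κ ≠ 0)
    (hG : ∀ τ : ℂ, τ.re < L → G (τ + per 1) - b1 = κ * (G τ - b1)) {σ : ℂ} (hσ : σ.re < Λ) :
    Ts G ℓ (σ + 2 * Real.pi * I) - conj b1 = (conj κ)⁻¹ * (Ts G ℓ σ - conj b1) := by
  unfold Ts
  have e0 : σ + 2 * Real.pi * I = σ + per 1 := by rw [per_one]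
  rw [e0, exp_add_per]
  have h1 : conj (σ + per 1 + ℓ (exp σ)) = conj (σ + ℓ (exp σ)) - per 1 := by
    rw [map_add, map_add, conj_per, map_add]
    ring
  have h2 := hG (conj (σ + ℓ (exp σ)) - per 1) (by
    rw [sub_re, per_re, sub_zero, conj_re]
    exact hC.re_lt hσ)
  rw [sub_add_cancel] at h2
  have hκ' : conj κ ≠ 0 := by rwa [ne_eq, _root_.map_eq_zero]
  rw [h1]
  have h3 : conj (G (conj (σ + ℓ (exp σ)))) - conj b1 =
      conj κ * (conj (G (conj (σ + ℓ (exp σ)) - per 1)) - conj b1) := by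
    rw [← map_sub, ← map_sub, h2, map_mul]
  rw [h3]
  field_simp

/-- the points near `w1`, with a bound -/
theorem inv_co' (hD : D0 φ r) (hw1 : 1 < ‖w1‖) (hC : Co φ r w1 L Λ ℓ) :
    ∃ (δ B : ℝ), 0 < δ ∧ ∀ τ : ℂ, ‖exp τ‖ < δ → ∃ σ : ℂ, σ.re < Λ ∧ Ts G ℓ σ = conj (G τ) ∧
      ‖exp σ‖ ≤ Real.exp Λ / 2 ∧ τ.re - B ≤ σ.re := by
  obtain ⟨δ, _, hδ, h⟩ := inv_co hD hw1 hC
  obtain ⟨B, hB⟩ := (isCompact_closedBall (0 : ℂ) (Real.exp Λ / 2)).exists_bound_of_continuousOn
    (hC.hℓ.continuousOn.mono (closedBall_subset_ball (half_lt_self (Real.exp_pos Λ))))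
  refine ⟨δ, B, hδ, fun τ hτ => ?_⟩
  obtain ⟨σ, h1, h2, h3, -⟩ := h (conj τ) (by rw [exp_conj, norm_conj]; exact hτ)
  refine ⟨σ, h1, ?_, h3, ?_⟩
  · unfold Ts
    rw [h2, conj_conj]
  · have h4 := hB (exp σ) (mem_closedBall_zero_iff.2 h3)
    have h5 := congrArg re h2
    rw [add_re, conj_re] at h5
    have h6 := (abs_re_le_norm (ℓ (exp σ))).trans h4
    linarith [(abs_le.1 h6).2]

/-- functions of `exp (σ / q)` -/
theorem repq {q : ℕ} (hq : 0 < q) {T1 : ℂ → ℂ} (hT : DifferentiableOn ℂ T1 (re ⁻¹' Iio Λ))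
    (hp : ∀ σ : ℂ, σ.re < Λ → T1 (σ + per q) = T1 σ) :
    ∃ V : ℂ → ℂ, DifferentiableOn ℂ V (ball 0 (Real.exp (Λ / q)) \ {0}) ∧
      ∀ σ : ℂ, σ.re < Λ → T1 σ = V (exp (σ / q)) := by
  have hq' : (0 : ℝ) < q := by exact_mod_cast hq
  have hqc : (q : ℂ) ≠ 0 := by exact_mod_cast hq.ne'
  have hper : ∀ σ : ℂ, σ.re ∈ Iio Λ → T1 (σ + per q) = T1 σ := fun σ hσ => hp σ hσ
  refine ⟨fun x => T1 (q * log x), ?_, ?_⟩
  · rintro x ⟨hx, hx0⟩
    refine (log_lift isOpen_Iio hT hper hx0 ?_).differentiableWithinAt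
    rw [mem_ball_zero_iff] at hx
    rw [Pool.Agent.E8helper32.SA.nat_mul_re, log_re, mem_Iio, mul_comm, ← lt_div_iff₀ hq',
      Real.log_lt_iff_lt_exp (norm_pos_iff.2 hx0)]
    exact hx
  · intro σ hσ
    have h1 := log_eq (q := q) hper (a := log (exp (σ / q))) (b := σ / q)
      (exp_log (exp_ne_zero _)) (by rw [mul_div_cancel₀ _ hqc]; exact hσ)
    simp only
    rw [h1, mul_div_cancel₀ _ hqc]

/-- the periodicity near `w1` gives the theorem -/
theorem loc_of_per (hG : P0 φ r w1 L G) {lam : ℝ} (hlam : 0 < lam)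
    (hBU : BranchesBlowUp φ r lam) (hNF : NoFiniteIsolatedSingularity φ r)
    (hVG : ∀ (z : ℂ) (f : ℂ → ℂ), Branch φ r z f → ∀ b,
      VG (lam / 4) φ b (1 / conj z) (Rf f))
    (hB : ∀ w ∈ ball w1 (Real.exp L), 1 < ‖w‖) {x0 : ℝ}
    (h : ∀ τ : ℂ, τ.re < L → τ.re < x0 → G (τ + per 1) = G τ) :
    ∃ E : ℂ → ℂ, DifferentiableOn ℂ E (ball w1 (Real.exp L)) ∧
      ∀ τ : ℂ, τ.re < L → G τ = E (w1 + exp τ) := by
  have hUo : IsOpen (re ⁻¹' Iio L : Set ℂ) := isOpen_Iio.preimage continuous_re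
  have hUc : Convex ℝ (re ⁻¹' Iio L : Set ℂ) := convex_halfSpace_re_lt L
  have hGs : DifferentiableOn ℂ (fun τ => G (τ + per 1)) (re ⁻¹' Iio L) := by
    refine hG.hG.comp (differentiableOn_id.add_const _) fun τ hτ => ?_
    show (τ + per 1).re < L
    rw [add_re, per_re, add_zero]
    exact hτ
  have hall : EqOn (fun τ => G (τ + per 1)) G (re ⁻¹' Iio L) := by
    refine Pool.Agent.E8helper32.SA.eqOn_convex' hUc hUo
      (W := re ⁻¹' Iio x0) (isOpen_Iio.preimage continuous_re) hGs hG.hG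
      (x := ((min L x0 - 1 : ℝ) : ℂ)) ?_ ?_ fun τ hτ => h τ hτ.1 hτ.2
    · rw [mem_preimage, ofReal_re, mem_Iio]; linarith [min_le_left L x0]
    · rw [mem_preimage, ofReal_re, mem_Iio]; linarith [min_le_right L x0]
  refine loc_main (Δ := 0) hG hlam hBU hNF hVG hB fun τ hτ => ?_
  rw [add_zero]
  exact hall hτ

/-- **The local theorem for affine monodromy.** -/
theorem loc_aff (hG : P0 φ r w1 L G) {lam : ℝ} (hlam : 0 < lam)
    (hBU : BranchesBlowUp φ r lam) (hNF : NoFiniteIsolatedSingularity φ r)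
    (hVG : ∀ (z : ℂ) (f : ℂ → ℂ), Branch φ r z f → ∀ b,
      VG (lam / 4) φ b (1 / conj z) (Rf f))
    (hB : ∀ w ∈ ball w1 (Real.exp L), 1 < ‖w‖) (hκ : κ ≠ 0)
    (hΔ : ∀ τ : ℂ, τ.re < L → G (τ + per 1) = κ * G τ + Δ) :
    ∃ E : ℂ → ℂ, DifferentiableOn ℂ E (ball w1 (Real.exp L)) ∧
      ∀ τ : ℂ, τ.re < L → G τ = E (w1 + exp τ) := by
  by_cases hκ1 : κ = 1
  · refine loc_main (Δ := Δ) hG hlam hBU hNF hVG hB fun τ hτ => ?_
    rw [hΔ τ hτ, hκ1, one_mul]
  have ha : 0 < lam / 4 := by positivity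
  have hw1 := hG.hw1
  have hs : 1 - κ ≠ 0 := sub_ne_zero.2 (Ne.symm hκ1)
  obtain ⟨b1, hb1⟩ : ∃ b1, b1 = Δ / (1 - κ) := ⟨_, rfl⟩
  have hGm : ∀ τ : ℂ, τ.re < L → G (τ + per 1) - b1 = κ * (G τ - b1) := by
    intro τ hτ
    rw [hΔ τ hτ, hb1]
    field_simp
    ring
  obtain ⟨Λ, ℓ, hC⟩ := exists_co hG.hD hw1 L
  have hJU := JU.shift ha (jboundU hG hC ha hVG) (conj b1)
  have hTd := Ts_diff hC hG.hG
  have hTd1 : DifferentiableOn ℂ (fun σ => Ts G ℓ σ - conj b1) (re ⁻¹' Iio Λ) :=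
    hTd.sub_const _
  have hTm : ∀ σ : ℂ, σ.re < Λ → Ts G ℓ (σ + 2 * Real.pi * I) - conj b1 =
      (conj κ)⁻¹ * (Ts G ℓ σ - conj b1) := fun σ hσ => Ts_mul hC hκ hGm hσ
  have hκ' : conj κ ≠ 0 := by rwa [ne_eq, _root_.map_eq_zero]
  have hκ0' : (conj κ)⁻¹ ≠ 0 := inv_ne_zero hκ'
  have hκ1' : (conj κ)⁻¹ ≠ 1 := by
    rw [ne_eq, inv_eq_one]
    intro h
    apply hκ1
    rw [← conj_conj κ, h, map_one]
  obtain ⟨δ, B, hδ, hinv⟩ := inv_co' (G := G) hG.hD hw1 hC
  by_cases hirr : ∀ n : ℕ, 0 < n → (conj κ)⁻¹ ^ n ≠ 1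
  · -- infinite order
    have hOP : OP (lam / 4) Λ (Ts G ℓ) := fun σ1 hσ1 b => opi hG hC ha hVG hσ1 b
    have hconst := irr ha hOP hTd hκ0' hirr hTm
    refine loc_of_per hG hlam hBU hNF hVG hB (x0 := Real.log δ) fun τ hτ hτ2 => ?_
    have hGc : ∀ τ : ℂ, τ.re < Real.log δ → G τ = b1 := by
      intro τ hτ
      obtain ⟨σ, h1, h2, -, -⟩ := hinv τ (by
        rw [norm_exp, ← Real.lt_log_iff_exp_lt hδ]; exact hτ)
      rw [hconst σ h1] at h2
      have := congrArg conj h2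
      rw [conj_conj, conj_conj] at this
      exact this.symm
    rw [hGc τ hτ2, hGc (τ + per 1) (by rw [add_re, per_re, add_zero]; exact hτ2)]
  · -- finite order
    push Not at hirr
    obtain ⟨q, hq0, hqq⟩ := hirr
    have hq2 : 2 ≤ q := by
      by_contra hcon
      have : q = 1 := by omega
      rw [this, pow_one] at hqq
      exact hκ1' hqq
    have hq' : (0 : ℝ) < q := by exact_mod_cast hq0
    have hqc : (q : ℂ) ≠ 0 := by exact_mod_cast hq0.ne'
    have hturn : ∀ σ : ℂ, σ.re < Λ → Ts G ℓ (σ + per q) - conj b1 = Ts G ℓ σ - conj b1 := by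
      intro σ hσ
      have h1 := turns hκ0' hTm (q : ℤ) hσ
      rw [zpow_natCast, hqq, one_mul] at h1
      unfold per
      rw [← h1]
      push_cast
      rfl
    obtain ⟨V, hVd, hTV⟩ := repq hq0 hTd1 hturn
    have hVm : ∀ σ : ℂ, σ.re < Λ → V (exp ((σ + 2 * Real.pi * I) / q)) =
        (conj κ)⁻¹ * V (exp (σ / q)) := by
      intro σ hσ
      rw [← hTV σ hσ, ← hTV (σ + 2 * Real.pi * I) (by
        have : (σ + 2 * Real.pi * I).re = σ.re := by simp
        rw [this]; exact hσ)]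
      exact hTm σ hσ
    have hmem : ∀ σ : ℂ, σ.re < Λ → exp (σ / q) ∈ ball (0 : ℂ) (Real.exp (Λ / q)) := by
      intro σ hσ
      rw [mem_ball_zero_iff, norm_exp]
      refine Real.exp_lt_exp.2 ?_
      rw [← ofReal_natCast, div_ofReal_re, div_lt_div_iff_of_pos_right hq']
      exact hσ
    rcases Pool.Agent.Y953.ES.tri 0 (Real.exp (Λ / q)) V (Real.exp_pos _) hVd with
      hess | ⟨m, E, hE, hm, hVE⟩
    · exact (partEq (cc := 0) hq2 ha hJU hTd1 hess fun σ hσ => by
        rw [zero_mul, add_zero]; exact hTV σ hσ).elim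
    have hTE : ∀ σ : ℂ, σ.re < Λ → Ts G ℓ σ - conj b1 = E (exp (σ / q)) / exp (σ / q) ^ m := by
      intro σ hσ
      rw [hTV σ hσ, hVE _ (hmem σ hσ) (exp_ne_zero _), sub_zero]
    have hmq : m ≠ q := by
      rintro rfl
      have hE0 : E 0 ≠ 0 := hm.resolve_left hq0.ne'
      have hrot : ∀ σ : ℂ, σ.re < Λ → E (exp ((σ + 2 * Real.pi * I) / m)) =
          (conj κ)⁻¹ * E (exp (σ / m)) := by
        intro σ hσ
        have h1 := hVm σ hσ
        have hσ2 : (σ + 2 * Real.pi * I).re < Λ := by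
          have : (σ + 2 * Real.pi * I).re = σ.re := by simp
          rw [this]; exact hσ
        rw [hVE _ (hmem σ hσ) (exp_ne_zero _), hVE _ (hmem _ hσ2) (exp_ne_zero _), sub_zero,
          sub_zero] at h1
        have h2 : exp ((σ + 2 * Real.pi * I) / m) ^ m = exp (σ / m) ^ m := by
          rw [← exp_nat_mul, ← exp_nat_mul, mul_div_cancel₀ _ hqc, mul_div_cancel₀ _ hqc,
            exp_periodic σ]
        rw [h2, mul_div_assoc'] at h1
        have h3 : exp (σ / m) ^ m ≠ 0 := pow_ne_zero _ (exp_ne_zero _)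
        exact (div_left_inj' h3).1 h1
      have hc : ContinuousAt E 0 := (hE.differentiableAt (isOpen_ball.mem_nhds
        (mem_ball_self (Real.exp_pos _)))).continuousAt
      have ht : ∀ c : ℂ, Tendsto (fun x : ℝ => exp (((x : ℂ) + c) / m)) atBot (𝓝 0) := by
        intro c
        rw [tendsto_zero_iff_norm_tendsto_zero]
        have h1 : ∀ x : ℝ, ‖exp (((x : ℂ) + c) / m)‖ = Real.exp ((x + c.re) / m) := by
          intro x
          rw [norm_exp, ← ofReal_natCast, div_ofReal_re, add_re, ofReal_re]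
        simp only [h1]
        exact Real.tendsto_exp_atBot.comp
          ((tendsto_atBot_add_const_right _ _ tendsto_id).atBot_div_const hq')
      have l1 := hc.tendsto.comp (ht (2 * Real.pi * I))
      have l2 := (hc.tendsto.comp (ht 0)).const_mul ((conj κ)⁻¹)
      have hev : ∀ᶠ x : ℝ in atBot, (E ∘ fun x : ℝ => exp (((x : ℂ) + 2 * Real.pi * I) / m)) x =
          (conj κ)⁻¹ * (E ∘ fun x : ℝ => exp (((x : ℂ) + 0) / m)) x := by
        filter_upwards [eventually_lt_atBot Λ] with x hx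
        simp only [Function.comp_apply]
        rw [add_zero]
        exact hrot x (by rw [ofReal_re]; exact hx)
      have h1 := tendsto_nhds_unique (l1.congr' hev) l2
      have h2 : ((conj κ)⁻¹ - 1) * E 0 = 0 := by linear_combination -h1
      rcases mul_eq_zero.1 h2 with h3 | h3
      · exact hκ1' (sub_eq_zero.1 h3)
      · exact hE0 h3
    rcases lt_or_gt_of_ne hmq with hlt | hgt
    · -- slow growth
      set R2 : ℝ := Real.exp ((Λ - Real.log 2) / q) with hR2
      have hl2 : 0 < Real.log 2 := Real.log_pos (by norm_num)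
      have hR2' : R2 < Real.exp (Λ / q) := by
        rw [hR2]
        refine Real.exp_lt_exp.2 ?_
        rw [div_lt_div_iff_of_pos_right hq']
        linarith
      obtain ⟨Mx, hMx⟩ := (isCompact_closedBall (0 : ℂ) R2).exists_bound_of_continuousOn
        (hE.continuousOn.mono (closedBall_subset_ball hR2'))
      have hMx0 : 0 ≤ Mx := (norm_nonneg _).trans (hMx 0 (mem_closedBall_self (Real.exp_pos _).le))
      have hgr : ∀ τ : ℂ, ‖exp τ‖ < δ → ‖G τ‖ ≤ ‖b1‖ +
          Mx * (Real.exp (m / q * B) * Real.exp (-(m / q * τ.re))) := by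
        intro τ hτ
        obtain ⟨σ, h1, h2, h3, h4⟩ := hinv τ hτ
        have h5 : σ.re ≤ Λ - Real.log 2 := by
          rw [norm_exp] at h3
          have h6 := Real.log_le_log (Real.exp_pos _) h3
          rwa [Real.log_exp, Real.log_div (Real.exp_pos _).ne' (by norm_num), Real.log_exp] at h6
        have h6 : ‖G τ‖ = ‖Ts G ℓ σ‖ := by rw [h2, norm_conj]
        have h7 : Ts G ℓ σ = conj b1 + E (exp (σ / q)) / exp (σ / q) ^ m := by
          rw [← hTE σ h1]; ring
        rw [h6, h7]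
        refine (norm_add_le _ _).trans ?_
        rw [norm_conj, norm_div, norm_pow, norm_exp, ← Real.exp_nat_mul]
        have h8 : (σ / q : ℂ).re = σ.re / q := by rw [← ofReal_natCast, div_ofReal_re]
        rw [h8]
        have h9 : ‖E (exp (σ / q))‖ ≤ Mx := by
          refine hMx _ ?_
          rw [mem_closedBall_zero_iff, norm_exp, h8, hR2]
          exact Real.exp_le_exp.2 (by gcongr)
        have h10 : 1 / Real.exp (m * (σ.re / q)) ≤
            Real.exp (m / q * B) * Real.exp (-(m / q * τ.re)) := by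
          rw [one_div, ← Real.exp_neg, ← Real.exp_add]
          refine Real.exp_le_exp.2 ?_
          have h11 : (m : ℝ) / q * (τ.re - B) ≤ m / q * σ.re := by gcongr
          have e : (m : ℝ) * (σ.re / q) = m / q * σ.re := by ring
          rw [e]
          linarith
        calc ‖b1‖ + ‖E (exp (σ / q))‖ / Real.exp (m * (σ.re / q))
            = ‖b1‖ + ‖E (exp (σ / q))‖ * (1 / Real.exp (m * (σ.re / q))) := by ring
          _ ≤ _ := by gcongr
      have hmq1 : (m : ℝ) / q < 1 := by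
        rw [div_lt_one hq']
        exact_mod_cast hlt
      have hlim : Tendsto (fun x : ℝ => Real.exp x * (‖b1‖ +
          Mx * (Real.exp (m / q * B) * Real.exp (-(m / q * x))))) atBot (𝓝 0) := by
        have h1 : Tendsto (fun x : ℝ => Real.exp x) atBot (𝓝 0) := Real.tendsto_exp_atBot
        have h2 : Tendsto (fun x : ℝ => Real.exp ((1 - m / q) * x)) atBot (𝓝 0) :=
          Real.tendsto_exp_atBot.comp (tendsto_id.const_mul_atBot (by linarith))
        have h3 := (h1.mul_const ‖b1‖).add (h2.const_mul (Mx * Real.exp (m / q * B)))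
        rw [zero_mul, mul_zero, add_zero] at h3
        refine h3.congr fun x => ?_
        have e : Real.exp ((1 - m / q) * x) = Real.exp x * Real.exp (-(m / q * x)) := by
          rw [← Real.exp_add]; congr 1; ring
        rw [e]
        ring
      obtain ⟨ε, E', hε, -, hGE⟩ := slow_ext hG hlam hBU (by
        intro η hη
        have h1 := hlim.eventually (ge_mem_nhds hη)
        obtain ⟨x0, hx0⟩ := Filter.eventually_atBot.1 h1
        refine ⟨min δ (Real.exp x0), lt_min hδ (Real.exp_pos _), fun τ hτ _ _ => ?_⟩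
        have h2 := hgr τ (hτ.trans_le (min_le_left _ _))
        have h3 : τ.re ≤ x0 := by
          have h4 := hτ.trans_le (min_le_right _ _)
          rw [norm_exp] at h4
          exact (Real.exp_lt_exp.1 h4).le
        rw [norm_exp]
        calc Real.exp τ.re * ‖G τ‖ ≤ Real.exp τ.re * (‖b1‖ +
              Mx * (Real.exp (m / q * B) * Real.exp (-(m / q * τ.re)))) := by gcongr
          _ ≤ η := hx0 _ h3)
      refine loc_of_per hG hlam hBU hNF hVG hB (x0 := Real.log ε) fun τ hτ hτ2 => ?_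
      rw [hGE τ hτ hτ2, hGE (τ + per 1) (by rw [add_re, per_re, add_zero]; exact hτ)
        (by rw [add_re, per_re, add_zero]; exact hτ2), exp_add_per]
    · -- large pole order
      exfalso
      have hm0 : m ≠ 0 := by omega
      refine partCL (q := q) (μ := (m : ℝ) / q) (E := E) (cc := 0) ha hq0
        ((one_lt_div hq').2 (by exact_mod_cast hgt)) hJU.jb hTd1 hE (hm.resolve_left hm0)
        fun σ hσ => ?_
      rw [hTE σ hσ, zero_mul, add_zero, div_eq_mul_inv, exp_neg, ← exp_nat_mul]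
      congr 3
      push_cast
      field_simp

end Pool.Agent.E8helper32.SP
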